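import Pool.Agent.Q306.FK.Cnt

/-! Counting the six-sets of bipartite type. -/

set_option autoImplicit false
set_option maxRecDepth 100000
set_option maxHeartbeats 4000000
open Finset

namespace Pool.Agent.Q306.FK
open Pool.Agent.H122R2.N6 Pool.Agent.H37R3.Pen Pool.Agent.H37R3.Cop Pool.Agent.H37R3.K5

variable {n : ℕ}

/-- the number of sets of six vertices on which `H` is the complete bipartite 3-graph with parts
of sizes `j` and `6 - j` -/
def bip6 (j : ℕ) {n : ℕ} (H : Finset (Finset (Fin n))) : ℕ :=
  (((univ : Finset (Fin n)).powersetCard 6).filter fun S =>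
    ∃ P ∈ S.powersetCard j, ∀ e ∈ S.powersetCard 3, (e ∈ H ↔ ¬ e ⊆ P ∧ ¬ e ⊆ S \ P)).card

theorem le_fiberN (S : Finset (Fin n)) (hS : S.card = 6) :
    720 ≤ ((univ : Finset (Fin 6 → Fin n)).filter fun x => univ.image x = S).card := by
  have h1 : (univ : Finset (Fin 6 ↪ S)).card = 720 := by
    rw [card_univ, Fintype.card_embedding_eq, Fintype.card_fin, Fintype.card_coe, hS]
    decide
  rw [← h1]
  refine card_le_card_of_injOn (fun e i => (e i : Fin n)) ?_ ?_
  · intro e _
    rw [mem_coe, mem_filter]
    refine ⟨mem_univ _, ?_⟩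
    refine eq_of_subset_of_card_le ?_ ?_
    · intro v hv
      obtain ⟨i, -, rfl⟩ := mem_image.mp hv
      exact (e i).2
    · rw [hS, card_image_of_injective]
      · simp
      · intro i j h
        exact e.injective (Subtype.ext h)
  · intro e _ f _ h
    ext i
    exact congrArg Fin.val (congrFun h i)

theorem bip6_le {j : ℕ} (H : Finset (Finset (Fin n))) :
    720 * bip6 j H ≤ ∑ x : Fin 6 → Fin n, ZT (tn H) j x := by
  classical
  unfold bip6
  set TA := ((univ : Finset (Fin n)).powersetCard 6).filter fun S =>
    ∃ P ∈ S.powersetCard j, ∀ e ∈ S.powersetCard 3, (e ∈ H ↔ ¬ e ⊆ P ∧ ¬ e ⊆ S \ P) with hTA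
  have e1 : ∑ x : Fin 6 → Fin n, ZT (tn H) j x =
      ((univ : Finset (Fin 6 → Fin n)).filter fun x => RelT (tn H) j x).card := by
    rw [card_filter]
    refine sum_congr rfl fun x _ => ?_
    unfold ZT
    by_cases h : RelT (tn H) j x
    · simp [h]
    · simp [h]
  rw [e1]
  have hsub : TA.biUnion (fun S => (univ : Finset (Fin 6 → Fin n)).filter fun x => univ.image x = S) ⊆
      (univ : Finset (Fin 6 → Fin n)).filter fun x => RelT (tn H) j x := by
    intro x hx
    obtain ⟨S, hS, hxS⟩ := mem_biUnion.mp hx
    rw [mem_filter] at hxS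
    rw [mem_filter]
    refine ⟨mem_univ _, ?_⟩
    rw [hTA, mem_filter, mem_powersetCard] at hS
    obtain ⟨⟨-, hS6⟩, P, hP, he⟩ := hS
    rw [mem_powersetCard] at hP
    have hinj : Function.Injective x := by
      have h1 : (univ.image x).card = (univ : Finset (Fin 6)).card := by
        rw [hxS.2, hS6]; rfl
      have h2 := Finset.injOn_of_card_image_eq h1
      intro i j hij
      exact h2 (by simp) (by simp) hij
    have hmem : ∀ i, x i ∈ S := fun i => by
      rw [← hxS.2]; exact mem_image_of_mem _ (mem_univ _)
    refine ⟨fun i => decide (x i ∈ P), ?_, ?_⟩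
    · unfold cnt
      have h1 : (univ.filter fun i : Fin 6 => decide (x i ∈ P) = true).image x = P := by
        ext v
        rw [mem_image]
        constructor
        · rintro ⟨i, hi, rfl⟩
          rw [mem_filter] at hi
          simpa using hi.2
        · intro hv
          have h2 : v ∈ univ.image x := by rw [hxS.2]; exact hP.1 hv
          obtain ⟨i, -, rfl⟩ := mem_image.mp h2
          exact ⟨i, mem_filter.mpr ⟨mem_univ _, by simpa using hv⟩, rfl⟩
      rw [← card_image_of_injective _ hinj, h1, hP.2]
    · intro i j k hij hik hjk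
      have h3 : ({x i, x j, x k} : Finset (Fin n)) ∈ S.powersetCard 3 := by
        rw [mem_powersetCard]
        refine ⟨?_, ?_⟩
        · intro v hv
          simp only [mem_insert, mem_singleton] at hv
          rcases hv with rfl | rfl | rfl <;> exact hmem _
        · rw [card_insert_of_notMem, card_insert_of_notMem, card_singleton]
          · simpa using hinj.ne hjk
          · simpa using ⟨hinj.ne hij, hinj.ne hik⟩
      have h4 := he _ h3
      simp only [insert_subset_iff, singleton_subset_iff, mem_sdiff, hmem, true_and] at h4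
      unfold tn pg
      by_cases p1 : x i ∈ P <;> by_cases p2 : x j ∈ P <;> by_cases p3 : x k ∈ P <;>
        simp [p1, p2, p3] at h4 ⊢ <;> exact h4
  refine le_trans ?_ (card_le_card hsub)
  rw [card_biUnion]
  · rw [mul_comm, ← smul_eq_mul, ← sum_const]
    refine sum_le_sum fun S hS => ?_
    rw [hTA, mem_filter, mem_powersetCard] at hS
    exact le_fiberN S hS.1.2
  · intro S _ T _ hST
    rw [Function.onFun, disjoint_left]
    intro x hx hx'
    rw [mem_filter] at hx hx'
    exact hST (hx.2.symm.trans hx'.2)

end Pool.Agent.Q306.FK
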