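import Pool.Agent.Q306.FK.Bip

/-! The six-sets of bipartite type in a complete bipartite 3-graph. -/

set_option autoImplicit false
set_option maxHeartbeats 4000000
open Finset

namespace Pool.Agent.Q306.FK

variable {n : ℕ}

theorem twoClass_compl (A : Finset (Fin n)) : twoClass Aᶜ = twoClass A := by
  unfold twoClass
  ext e
  simp only [mem_filter, mem_univ, true_and, compl_compl]
  tauto

/-- the family of the sets with `j` elements in `A` and `k` elements outside -/
def fam (A : Finset (Fin n)) (j k : ℕ) : Finset (Finset (Fin n)) :=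
  (A.powersetCard j ×ˢ (Aᶜ).powersetCard k).image fun p => p.1 ∪ p.2

theorem fam_mem {A S : Finset (Fin n)} {j k : ℕ} (h : S ∈ fam A j k) :
    (S ∩ A).card = j ∧ (S ∩ Aᶜ).card = k ∧ S.card = j + k ∧ S ∩ A ∪ S ∩ Aᶜ = S := by
  unfold fam at h
  rw [mem_image] at h
  obtain ⟨⟨P, Q⟩, h1, rfl⟩ := h
  rw [mem_product, mem_powersetCard, mem_powersetCard] at h1
  obtain ⟨⟨hP, hPj⟩, hQ, hQk⟩ := h1
  simp only at hP hPj hQ hQk ⊢
  have e1 : (P ∪ Q) ∩ A = P := by
    ext v
    simp only [mem_inter, mem_union]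
    constructor
    · rintro ⟨h | h, h2⟩
      · exact h
      · exact absurd h2 (mem_compl.mp (hQ h))
    · intro h
      exact ⟨Or.inl h, hP h⟩
  have e2 : (P ∪ Q) ∩ Aᶜ = Q := by
    ext v
    simp only [mem_inter, mem_union]
    constructor
    · rintro ⟨h | h, h2⟩
      · exact absurd (hP h) (mem_compl.mp h2)
      · exact h
    · intro h
      exact ⟨Or.inr h, hQ h⟩
  have hdis : Disjoint P Q := by
    rw [disjoint_left]
    intro v hv hv2
    exact mem_compl.mp (hQ hv2) (hP hv)
  refine ⟨by rw [e1, hPj], by rw [e2, hQk], ?_, ?_⟩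
  · rw [card_union_of_disjoint hdis, hPj, hQk]
  · rw [e1, e2]

theorem fam_card (A : Finset (Fin n)) (j k : ℕ) :
    (fam A j k).card = A.card.choose j * (n - A.card).choose k := by
  unfold fam
  rw [card_image_of_injOn, card_product, card_powersetCard, card_powersetCard, card_compl,
    Fintype.card_fin]
  rintro ⟨P, Q⟩ h ⟨P', Q'⟩ h' e
  rw [mem_coe, mem_product, mem_powersetCard, mem_powersetCard] at h h'
  simp only at h h' e
  have key : ∀ {P Q P' Q' : Finset (Fin n)}, P ⊆ A → Q ⊆ Aᶜ → P' ⊆ A → Q' ⊆ Aᶜ → P ∪ Q = P' ∪ Q' →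
      P ⊆ P' ∧ Q ⊆ Q' := by
    intro P Q P' Q' hP hQ hP' hQ' e
    constructor
    · intro v hv
      have h1 : v ∈ P' ∪ Q' := by rw [← e]; exact mem_union_left _ hv
      rcases mem_union.mp h1 with h1 | h1
      · exact h1
      · exact absurd (hP hv) (mem_compl.mp (hQ' h1))
    · intro v hv
      have h1 : v ∈ P' ∪ Q' := by rw [← e]; exact mem_union_right _ hv
      rcases mem_union.mp h1 with h1 | h1
      · exact absurd (hP' h1) (mem_compl.mp (hQ hv))
      · exact h1
  have k1 := key h.1.1 h.2.1 h'.1.1 h'.2.1 e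
  have k2 := key h'.1.1 h'.2.1 h.1.1 h.2.1 e.symm
  rw [subset_antisymm k1.1 k2.1, subset_antisymm k1.2 k2.2]

theorem fam_sub {A S : Finset (Fin n)} {j k : ℕ} (hjk : j + k = 6) (h : S ∈ fam A j k) :
    S ∈ ((univ : Finset (Fin n)).powersetCard 6).filter fun S =>
      ∃ P ∈ S.powersetCard j, ∀ e ∈ S.powersetCard 3,
        (e ∈ twoClass A ↔ ¬ e ⊆ P ∧ ¬ e ⊆ S \ P) := by
  obtain ⟨h1, h2, h3, h4⟩ := fam_mem h
  rw [mem_filter, mem_powersetCard]
  refine ⟨⟨subset_univ _, h3.trans hjk⟩, S ∩ A, ?_, ?_⟩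
  · rw [mem_powersetCard]
    exact ⟨inter_subset_left, h1⟩
  · intro e he
    rw [mem_powersetCard] at he
    unfold twoClass
    rw [mem_filter]
    have e1 : e ⊆ S ∩ A ↔ e ⊆ A := by
      rw [subset_inter_iff]
      exact ⟨fun h => h.2, fun h => ⟨he.1, h⟩⟩
    have e2 : e ⊆ S \ (S ∩ A) ↔ e ⊆ Aᶜ := by
      constructor
      · intro h v hv
        have := h hv
        rw [mem_sdiff, mem_inter] at this
        rw [mem_compl]
        exact fun hA => this.2 ⟨this.1, hA⟩
      · intro h v hv
        rw [mem_sdiff, mem_inter]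
        exact ⟨he.1 hv, fun hA => mem_compl.mp (h hv) hA.2⟩
    rw [e1, e2]
    simp [he.2]

/-- the numbers of six-sets of bipartite type in the complete bipartite 3-graphs -/
theorem bip6_twoClass (A : Finset (Fin n)) (a b : ℕ) (ha : A.card = a) (hb : n - A.card = b) :
    a.choose 3 * b.choose 3 ≤ bip6 3 (twoClass A) ∧
    a.choose 2 * b.choose 4 + b.choose 2 * a.choose 4 ≤ bip6 2 (twoClass A) ∧
    a.choose 1 * b.choose 5 + b.choose 1 * a.choose 5 ≤ bip6 1 (twoClass A) := by
  subst ha hb
  have hc : (Aᶜ).card = n - A.card := by rw [card_compl, Fintype.card_fin]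
  have hA : A.card ≤ n := by
    calc _ ≤ (univ : Finset (Fin n)).card := card_le_univ A
      _ = n := by rw [card_univ, Fintype.card_fin]
  have hd : n - (Aᶜ).card = A.card := by omega
  have key : ∀ j k : ℕ, j + k = 6 → j < k →
      A.card.choose j * (n - A.card).choose k + (n - A.card).choose j * A.card.choose k ≤
        bip6 j (twoClass A) := by
    intro j k hjk hlt
    rw [← fam_card A j k]
    have e : (n - A.card).choose j * A.card.choose k = (fam Aᶜ j k).card := by
      rw [fam_card, hc]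
      congr 2
      omega
    rw [e, ← card_union_of_disjoint]
    · refine card_le_card fun S hS => ?_
      rcases mem_union.mp hS with h | h
      · exact fam_sub hjk h
      · have h5 := fam_sub hjk h
        rw [twoClass_compl] at h5
        exact h5
    · rw [disjoint_left]
      intro S h1 h2
      obtain ⟨h3, -, -, -⟩ := fam_mem h1
      obtain ⟨-, h4, -, -⟩ := fam_mem h2
      rw [compl_compl] at h4
      omega
  refine ⟨?_, key 2 4 (by norm_num) (by norm_num), key 1 5 (by norm_num) (by norm_num)⟩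
  rw [← fam_card A 3 3]
  exact card_le_card fun S hS => fam_sub (by norm_num) hS

end Pool.Agent.Q306.FK
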