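import Pool.Agent.Q306.FK.Defs

/-! The complete bipartite 3-graphs. -/

set_option autoImplicit false
open Finset

namespace Pool.Agent.Q306.FK

theorem twoClass_three {n : ℕ} (A : Finset (Fin n)) : ThreeGraph (twoClass A) :=
  fun _ he => (mem_filter.mp he).2.1

theorem twoClass_free {n : ℕ} (A : Finset (Fin n)) : K53Free (twoClass A) := by
  intro S hS
  have h1 : (S.filter fun x => x ∈ A).card + (S.filter fun x => ¬ x ∈ A).card = 5 := by
    rw [card_filter_add_card_filter_not, hS]
  rcases Nat.lt_or_ge (S.filter fun x => x ∈ A).card 3 with h2 | h2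
  · obtain ⟨s, hs, hs3⟩ := exists_subset_card_eq (s := S.filter fun x => ¬ x ∈ A) (n := 3)
      (by omega)
    refine ⟨s, hs.trans (filter_subset _ _), hs3, fun h => ?_⟩
    exact (mem_filter.mp h).2.2.2 fun x hx => mem_compl.mpr (mem_filter.mp (hs hx)).2
  · obtain ⟨s, hs, hs3⟩ := exists_subset_card_eq (s := S.filter fun x => x ∈ A) (n := 3) h2
    refine ⟨s, hs.trans (filter_subset _ _), hs3, fun h => ?_⟩
    exact (mem_filter.mp h).2.2.1 fun x hx => (mem_filter.mp (hs hx)).2

theorem twoClass_no {n m : ℕ} (A : Finset (Fin n)) {F : Finset (Finset (Fin m))}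
    (hF : ¬ TwoColourable F) : ¬ Contains F (twoClass A) := by
  rintro ⟨f, hf, h⟩
  refine hF ⟨fun i => decide (f i ∈ A), fun e he => ?_⟩
  have h1 := (mem_filter.mp (h e he)).2
  by_contra hcon
  push Not at hcon
  rcases eq_empty_or_nonempty e with h0 | ⟨i, hi⟩
  · rw [h0] at h1
    simp at h1
  · by_cases hA : f i ∈ A
    · refine h1.2.1 fun x hx => ?_
      obtain ⟨j, hj, rfl⟩ := mem_image.mp hx
      have := hcon i hi j hj
      simpa [hA] using this
    · refine h1.2.2 fun x hx => ?_
      obtain ⟨j, hj, rfl⟩ := mem_image.mp hx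
      have := hcon i hi j hj
      rw [mem_compl]
      simpa [hA] using this

theorem ch3 (n : ℕ) : 6 * ((n.choose 3 : ℕ) : ℝ) = n * (n - 1) * (n - 2) := by
  rcases Nat.lt_or_ge n 3 with h | h
  · interval_cases n <;> simp [Nat.choose]
  · have h1 : n.descFactorial 3 = Nat.factorial 3 * n.choose 3 :=
      Nat.descFactorial_eq_factorial_mul_choose n 3
    obtain ⟨m, rfl⟩ : ∃ m, n = m + 3 := ⟨n - 3, by omega⟩
    have h2 : (m + 3).descFactorial 3 = (m + 1) * ((m + 2) * (m + 3)) := by
      rw [Nat.descFactorial_succ, Nat.descFactorial_succ, Nat.descFactorial_succ,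
        Nat.descFactorial_zero]
      have e1 : m + 3 - 0 = m + 3 := by omega
      have e2 : m + 3 - 1 = m + 2 := by omega
      have e3 : m + 3 - 2 = m + 1 := by omega
      rw [e1, e2, e3, mul_one]
    rw [h2] at h1
    have h3 : ((m : ℝ) + 1) * ((m + 2) * (m + 3)) = 6 * (((m + 3).choose 3 : ℕ) : ℝ) := by
      have h4 : (((m + 1) * ((m + 2) * (m + 3)) : ℕ) : ℝ) =
          ((Nat.factorial 3 * (m + 3).choose 3 : ℕ) : ℝ) := by rw [h1]
      have h5 : Nat.factorial 3 = 6 := by decide
      rw [h5] at h4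
      push_cast at h4
      linarith
    rw [← h3]
    push_cast
    ring

theorem twoClass_card (n : ℕ) : ∃ A : Finset (Fin n), 3 * n.choose 3 ≤ 4 * (twoClass A).card := by
  obtain ⟨A, -, hA⟩ := exists_subset_card_eq (s := (univ : Finset (Fin n))) (n := n / 2)
    (by rw [card_univ, Fintype.card_fin]; omega)
  refine ⟨A, ?_⟩
  have hAc : Aᶜ.card = n - n / 2 := by rw [card_compl, Fintype.card_fin, hA]
  have h1 : (univ : Finset (Fin n)).powersetCard 3 ⊆
      twoClass A ∪ (A.powersetCard 3 ∪ Aᶜ.powersetCard 3) := by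
    intro e he
    have he3 := (mem_powersetCard.mp he).2
    by_cases e1 : e ⊆ A
    · exact mem_union_right _ (mem_union_left _ (mem_powersetCard.mpr ⟨e1, he3⟩))
    · by_cases e2 : e ⊆ Aᶜ
      · exact mem_union_right _ (mem_union_right _ (mem_powersetCard.mpr ⟨e2, he3⟩))
      · exact mem_union_left _ (mem_filter.mpr ⟨mem_univ _, he3, e1, e2⟩)
  have h2 := (card_le_card h1).trans ((card_union_le _ _).trans
    (Nat.add_le_add_left (card_union_le _ _) _))
  rw [card_powersetCard, card_powersetCard, card_powersetCard, card_univ, Fintype.card_fin, hA,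
    hAc] at h2
  have h3 : 4 * ((n / 2).choose 3 + (n - n / 2).choose 3) ≤ n.choose 3 := by
    have c0 := ch3 n
    have c1 := ch3 (n / 2)
    have c2 := ch3 (n - n / 2)
    have key : (4 : ℝ) * (((n / 2).choose 3 : ℕ) + ((n - n / 2).choose 3 : ℕ)) ≤
        ((n.choose 3 : ℕ) : ℝ) := by
      rcases Nat.even_or_odd' n with ⟨k, rfl | rfl⟩
      · have e1 : 2 * k / 2 = k := by omega
        have e2 : 2 * k - 2 * k / 2 = k := by omega
        rw [e2] at c2
        rw [e1] at c1
        rw [e2, e1]
        push_cast at c0 c1 c2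
        rcases Nat.eq_zero_or_pos k with rfl | hk
        · simp
        · have hk1 : (1 : ℝ) ≤ k := by exact_mod_cast hk
          nlinarith [mul_nonneg (by linarith : (0 : ℝ) ≤ k) (by linarith : (0 : ℝ) ≤ (k : ℝ) - 1)]
      · have e1 : (2 * k + 1) / 2 = k := by omega
        have e2 : 2 * k + 1 - (2 * k + 1) / 2 = k + 1 := by omega
        rw [e2] at c2
        rw [e1] at c1
        rw [e2, e1]
        push_cast at c0 c1 c2
        rcases Nat.eq_zero_or_pos k with rfl | hk
        · simp [Nat.choose]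
        · have hk1 : (1 : ℝ) ≤ k := by exact_mod_cast hk
          have q : (0 : ℝ) ≤ k * (2 * k - 1) := mul_nonneg (by linarith) (by linarith)
          nlinarith [q]
    exact_mod_cast key
  omega

end Pool.Agent.Q306.FK
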