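import Pool.Agent.Q306.FK.Sem
import Pool.Agent.Q306.FK.Two
import Pool.Agent.H37R3.K5.Free

/-! From sums over six-tuples to numbers of copies. -/

set_option autoImplicit false
set_option maxRecDepth 100000
set_option maxHeartbeats 4000000
open Finset

namespace Pool.Agent.Q306.FK
open Pool.Agent.H122R2.N6 Pool.Agent.H37R3.Pen Pool.Agent.H37R3.Cop Pool.Agent.H37R3.K5

variable {n : ℕ}

/-- indicator of the edges -/
def tn (H : Finset (Finset (Fin n))) (a b c : Fin n) : ℕ :=
  if ({a, b, c} : Finset (Fin n)) ∈ H then 1 else 0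

theorem tn_eq (H : Finset (Finset (Fin n))) : tn H = tri H := by
  funext a b c
  unfold tn tri
  have e : (@insert (Fin n) (Finset (Fin n)) (@Finset.instInsert (Fin n)
      fun a b => Classical.propDecidable (a = b)) a
      (@insert (Fin n) (Finset (Fin n)) (@Finset.instInsert (Fin n)
      fun a b => Classical.propDecidable (a = b)) b {c})) = ({a, b, c} : Finset (Fin n)) := by
    ext t
    simp only [mem_insert, mem_singleton]
  by_cases h : ({a, b, c} : Finset (Fin n)) ∈ H
  · rw [if_pos h, if_pos]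
    rw [e]; exact h
  · rw [if_neg h, if_neg]
    rw [e]; exact h

theorem tn_one {H : Finset (Finset (Fin n))} {a b c : Fin n} :
    tn H a b c = 1 ↔ ({a, b, c} : Finset (Fin n)) ∈ H := by
  unfold tn
  split_ifs with h
  · simp [h]
  · simp [h]

theorem tn_sy (H : Finset (Finset (Fin n))) : Sy (tn H) := by
  rw [tn_eq]; exact tri_sy H

theorem tn_noK5 {H : Finset (Finset (Fin n))} (hH : ThreeGraph H) (hF : FK.K53Free H) :
    NoK5 (tn H) := by
  rw [tn_eq]; exact tri_noK5 hH hF

theorem tn_card {H : Finset (Finset (Fin n))} (hH : ThreeGraph H) :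
    6 * H.card ≤ ∑ a, ∑ b, ∑ c, tn H a b c := by
  rw [tn_eq]; exact six_card_le hH

theorem dist3 {H : Finset (Finset (Fin n))} (hH : ThreeGraph H) {a b c : Fin n}
    (h : ({a, b, c} : Finset (Fin n)) ∈ H) : a ≠ b ∧ a ≠ c ∧ b ≠ c := by
  have h3 := hH _ h
  refine ⟨?_, ?_, ?_⟩
  · rintro rfl
    rw [Finset.insert_eq_of_mem (by simp)] at h3
    have := Finset.card_le_two (a := a) (b := c)
    omega
  · rintro rfl
    rw [Finset.insert_eq_of_mem (by simp)] at h3
    have := Finset.card_le_two (a := b) (b := a)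
    omega
  · rintro rfl
    have e : ({a, b, b} : Finset (Fin n)) = {a, b} := by ext t; simp
    rw [e] at h3
    have := Finset.card_le_two (a := a) (b := b)
    omega

/-- the mask `m` describes the six-vertex 3-graph `G`, all of whose pairs are covered -/
def MaskG (m : ℕ) (G : Finset (Finset (Fin 6))) : Prop :=
  (∀ i j k : Fin 6, i < j → j < k → (bt m (ti i j k) = 1 ↔ ({i, j, k} : Finset (Fin 6)) ∈ G)) ∧
  ∀ i j : Fin 6, i ≠ j → ∃ k : Fin 6, k ≠ i ∧ k ≠ j ∧ bt m (ti i j k) = 1

instance (m : ℕ) (G : Finset (Finset (Fin 6))) : Decidable (MaskG m G) := by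
  unfold MaskG; infer_instance

theorem sortedT (t : Finset (Fin 6)) (ht : t.card = 3) :
    ∃ i j k : Fin 6, i < j ∧ j < k ∧ t = {i, j, k} := by
  obtain ⟨x, y, z, hxy, hxz, hyz, rfl⟩ := Finset.card_eq_three.mp ht
  rcases lt_or_gt_of_ne hxy with h1 | h1 <;> rcases lt_or_gt_of_ne hxz with h2 | h2 <;>
    rcases lt_or_gt_of_ne hyz with h3 | h3
  · exact ⟨x, y, z, h1, h3, rfl⟩
  · exact ⟨x, z, y, h2, h3, by rw [pair_comm y z]⟩
  · exact absurd (h1.trans h3) (not_lt.mpr h2.le)
  · exact ⟨z, x, y, h2, h1, by ext t; simp; tauto⟩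
  · exact ⟨y, x, z, h1, h2, by rw [insert_comm]⟩
  · exact absurd (h1.trans h2) (not_lt.mpr h3.le)
  · exact ⟨y, z, x, h3, h2, by ext t; simp; tauto⟩
  · exact ⟨z, y, x, h3, h1, by ext t; simp; tauto⟩

theorem fiberN_le (S : Finset (Fin n)) (hS : S.card = 6) :
    ((univ : Finset (Fin 6 → Fin n)).filter fun x => univ.image x = S).card ≤ 720 := by
  have hsub : ((univ : Finset (Fin 6 → Fin n)).filter fun x => univ.image x = S) ⊆
      (univ : Finset (Fin 6 ↪ S)).image (fun e i => (e i : Fin n)) := by
    intro x hx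
    rw [mem_filter] at hx
    have hinj : Function.Injective x := by
      have h1 : (univ.image x).card = (univ : Finset (Fin 6)).card := by
        rw [hx.2, hS]; rfl
      have h2 := Finset.injOn_of_card_image_eq h1
      intro i j hij
      exact h2 (by simp) (by simp) hij
    have hmem : ∀ i, x i ∈ S := fun i => by
      rw [← hx.2]; exact mem_image_of_mem _ (mem_univ _)
    rw [mem_image]
    refine ⟨⟨fun i => ⟨x i, hmem i⟩, ?_⟩, mem_univ _, rfl⟩
    intro i j hij
    exact hinj (congrArg Subtype.val hij)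
  refine (card_le_card hsub).trans (card_image_le.trans ?_)
  rw [card_univ, Fintype.card_embedding_eq, Fintype.card_fin, Fintype.card_coe, hS]
  decide

theorem inj_of_cover {H : Finset (Finset (Fin n))} (hH : ThreeGraph H) {m : ℕ}
    {G : Finset (Finset (Fin 6))} (hm : MaskG m G) {f : Fin 6 → Fin n}
    (h : ∀ i j k : Fin 6, i < j → j < k → bt m (ti i j k) = 1 → tn H (f i) (f j) (f k) = 1) :
    Function.Injective f := by
  intro i j hij
  by_contra hne
  obtain ⟨k, hk1, hk2, hk3⟩ := hm.2 i j hne
  have h1 := of_sorted (P := fun i j k => bt m (ti i j k) = 1 → tn H (f i) (f j) (f k) = 1)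
    (fun i j k h hb => by rw [(tn_sy H).h213]; exact h (by rwa [ti_213] at hb))
    (fun i j k h hb => by rw [(tn_sy H).h132]; exact h (by rwa [ti_132] at hb)) h
    i j k hne hk1.symm hk2.symm hk3
  rw [tn_one] at h1
  exact (dist3 hH h1).1 hij

theorem sum_XS_le {H : Finset (Finset (Fin n))} (hH : ThreeGraph H) {m : ℕ}
    {G : Finset (Finset (Fin 6))} (hm : MaskG m G) (hG : ∀ e ∈ G, e.card = 3) :
    ∑ x : Fin 6 → Fin n, XS (tn H) m x ≤ 720 * copies G H := by
  classical
  set TA := (((univ : Finset (Fin n)).powersetCard 6).filter fun S =>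
    ∃ f : Fin 6 → Fin n, Function.Injective f ∧ univ.image f = S ∧ ∀ e ∈ G, e.image f ∈ H) with hTA
  have e0 : copies G H = TA.card := by
    unfold copies
    rw [hTA]
  have e1 : ∑ x : Fin 6 → Fin n, XS (tn H) m x =
      ((univ : Finset (Fin 6 → Fin n)).filter fun x => RelS (tn H) m x).card := by
    rw [card_filter]
    refine sum_congr rfl fun x _ => ?_
    unfold XS
    by_cases h : RelS (tn H) m x
    · simp [h]
    · simp [h]
  have hmap : ∀ x ∈ (univ : Finset (Fin 6 → Fin n)).filter (fun x => RelS (tn H) m x),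
      univ.image x ∈ TA := by
    intro x hx
    rw [mem_filter] at hx
    obtain ⟨-, g, hg, hc⟩ := hx
    have hgs : Function.Surjective g := Finite.surjective_of_injective hg
    have him : univ.image (x ∘ g) = univ.image x := by
      ext v
      simp only [mem_image, mem_univ, true_and, Function.comp]
      constructor
      · rintro ⟨i, hi⟩; exact ⟨g i, hi⟩
      · rintro ⟨i, hi⟩
        obtain ⟨j, hj⟩ := hgs i
        exact ⟨j, by rw [hj]; exact hi⟩
    have hinj := inj_of_cover hH hm (f := x ∘ g) hc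
    have hcard : (univ.image x).card = 6 := by
      rw [← him, card_image_of_injective _ hinj]; rfl
    rw [hTA]
    refine mem_filter.mpr ⟨mem_powersetCard.mpr ⟨subset_univ _, hcard⟩, x ∘ g, hinj, him, ?_⟩
    intro e he
    obtain ⟨i, j, k, hij, hjk, rfl⟩ := sortedT e (hG e he)
    have h1 := hc i j k hij hjk ((hm.1 i j k hij hjk).mpr he)
    rw [tn_one] at h1
    simp only [image_insert, image_singleton, Function.comp]
    exact h1
  rw [e0, e1, card_eq_sum_card_fiberwise hmap]
  calc _ ≤ ∑ S ∈ TA, 720 := by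
        refine sum_le_sum fun S hS => ?_
        have hS6 : S.card = 6 := (mem_powersetCard.mp (mem_filter.mp hS).1).2
        refine (card_le_card ?_).trans (fiberN_le S hS6)
        intro x hx
        rw [mem_filter] at hx ⊢
        exact ⟨mem_univ _, hx.2⟩
    _ = 720 * TA.card := by rw [sum_const, smul_eq_mul, mul_comm]

end Pool.Agent.Q306.FK
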