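import Pool.Agent.H37R3.K5.Pen
import Pool.Agent.H37R3.CopL

/-! Six-vertex flags for 3-graphs without a complete 3-graph on five vertices, with a general test
for the structures on six vertices. -/

set_option autoImplicit false
set_option maxRecDepth 100000
set_option maxHeartbeats 4000000
open Finset

namespace Pool.Agent.Q306.FK
open Pool.Agent.H122R2.N6 Pool.Agent.H37R3.Pen Pool.Agent.H37R3.Cop Pool.Agent.H37R3.K5

/-- the code of a structure on six vertices -/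
def cd20 (b012 b013 b023 b123 b014 b024 b124 b034 b134 b234 b015 b025 b125 b035 b135 b235 b045 b145 b245 b345 : ℕ) : ℕ := (Nat.add b012 (Nat.mul 2 (Nat.add b013 (Nat.mul 2 (Nat.add b023 (Nat.mul 2 (Nat.add b123 (Nat.mul 2 (Nat.add b014 (Nat.mul 2 (Nat.add b024 (Nat.mul 2 (Nat.add b124 (Nat.mul 2 (Nat.add b034 (Nat.mul 2 (Nat.add b134 (Nat.mul 2 (Nat.add b234 (Nat.mul 2 (Nat.add b015 (Nat.mul 2 (Nat.add b025 (Nat.mul 2 (Nat.add b125 (Nat.mul 2 (Nat.add b035 (Nat.mul 2 (Nat.add b135 (Nat.mul 2 (Nat.add b235 (Nat.mul 2 (Nat.add b045 (Nat.mul 2 (Nat.add b145 (Nat.mul 2 (Nat.add b245 (Nat.mul 2 b345))))))))))))))))))))))))))))))))))))))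

theorem bt_zero {b m : ℕ} (h : Bt b) : bt (Nat.add b (Nat.mul 2 m)) 0 = b := by
  have e : bt (Nat.add b (Nat.mul 2 m)) 0 = (b + 2 * m) % 2 := by
    unfold bt
    have : Nat.shiftRight (Nat.add b (Nat.mul 2 m)) 0 = b + 2 * m := rfl
    rw [this]; rfl
  rw [e]
  unfold Bt at h
  omega

theorem bt_succ {b m i : ℕ} (h : Bt b) : bt (Nat.add b (Nat.mul 2 m)) (i + 1) = bt m i := by
  have e : ∀ c j, bt c j = c / 2 ^ j % 2 := fun c j => by
    unfold bt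
    have : Nat.shiftRight c j = c >>> j := rfl
    rw [this, Nat.shiftRight_eq_div_pow]
    rfl
  have e2 : Nat.add b (Nat.mul 2 m) = b + 2 * m := rfl
  rw [e, e, e2, pow_succ, mul_comm (2 ^ i) 2, ← Nat.div_div_eq_div_mul]
  have : (b + 2 * m) / 2 = m := by unfold Bt at h; omega
  rw [this]

theorem bt_last {b : ℕ} (h : Bt b) : bt b 0 = b := by
  rcases h with rfl | rfl <;> rfl

theorem bt_cd20 {b012 b013 b023 b123 b014 b024 b124 b034 b134 b234 b015 b025 b125 b035 b135 b235 b045 b145 b245 b345 : ℕ} (h0 : Bt b012) (h1 : Bt b013) (h2 : Bt b023) (h3 : Bt b123) (h4 : Bt b014) (h5 : Bt b024) (h6 : Bt b124) (h7 : Bt b034) (h8 : Bt b134) (h9 : Bt b234) (h10 : Bt b015) (h11 : Bt b025) (h12 : Bt b125) (h13 : Bt b035) (h14 : Bt b135) (h15 : Bt b235) (h16 : Bt b045) (h17 : Bt b145) (h18 : Bt b245) (h19 : Bt b345) :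
    bt (cd20 b012 b013 b023 b123 b014 b024 b124 b034 b134 b234 b015 b025 b125 b035 b135 b235 b045 b145 b245 b345) 0 = b012 ∧ bt (cd20 b012 b013 b023 b123 b014 b024 b124 b034 b134 b234 b015 b025 b125 b035 b135 b235 b045 b145 b245 b345) 1 = b013 ∧ bt (cd20 b012 b013 b023 b123 b014 b024 b124 b034 b134 b234 b015 b025 b125 b035 b135 b235 b045 b145 b245 b345) 2 = b023 ∧ bt (cd20 b012 b013 b023 b123 b014 b024 b124 b034 b134 b234 b015 b025 b125 b035 b135 b235 b045 b145 b245 b345) 3 = b123 ∧ bt (cd20 b012 b013 b023 b123 b014 b024 b124 b034 b134 b234 b015 b025 b125 b035 b135 b235 b045 b145 b245 b345) 4 = b014 ∧ bt (cd20 b012 b013 b023 b123 b014 b024 b124 b034 b134 b234 b015 b025 b125 b035 b135 b235 b045 b145 b245 b345) 5 = b024 ∧ bt (cd20 b012 b013 b023 b123 b014 b024 b124 b034 b134 b234 b015 b025 b125 b035 b135 b235 b045 b145 b245 b345) 6 = b124 ∧ bt (cd20 b012 b013 b023 b123 b014 b024 b124 b034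 b134 b234 b015 b025 b125 b035 b135 b235 b045 b145 b245 b345) 7 = b034 ∧ bt (cd20 b012 b013 b023 b123 b014 b024 b124 b034 b134 b234 b015 b025 b125 b035 b135 b235 b045 b145 b245 b345) 8 = b134 ∧ bt (cd20 b012 b013 b023 b123 b014 b024 b124 b034 b134 b234 b015 b025 b125 b035 b135 b235 b045 b145 b245 b345) 9 = b234 ∧ bt (cd20 b012 b013 b023 b123 b014 b024 b124 b034 b134 b234 b015 b025 b125 b035 b135 b235 b045 b145 b245 b345) 10 = b015 ∧ bt (cd20 b012 b013 b023 b123 b014 b024 b124 b034 b134 b234 b015 b025 b125 b035 b135 b235 b045 b145 b245 b345) 11 = b025 ∧ bt (cd20 b012 b013 b023 b123 b014 b024 b124 b034 b134 b234 b015 b025 b125 b035 b135 b235 b045 b145 b245 b345) 12 = b125 ∧ bt (cd20 b012 b013 b023 b123 b014 b024 b124 b034 b134 b234 b015 b025 b125 b035 b135 b235 b045 b145 b245 b345) 13 = b035 ∧ bt (cd20 b012 b013 b023 b123 b014 b024 b124 b034 b134 b234 b015 b025 b125 b035 b135 b235 b045 b145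 b245 b345) 14 = b135 ∧ bt (cd20 b012 b013 b023 b123 b014 b024 b124 b034 b134 b234 b015 b025 b125 b035 b135 b235 b045 b145 b245 b345) 15 = b235 ∧ bt (cd20 b012 b013 b023 b123 b014 b024 b124 b034 b134 b234 b015 b025 b125 b035 b135 b235 b045 b145 b245 b345) 16 = b045 ∧ bt (cd20 b012 b013 b023 b123 b014 b024 b124 b034 b134 b234 b015 b025 b125 b035 b135 b235 b045 b145 b245 b345) 17 = b145 ∧ bt (cd20 b012 b013 b023 b123 b014 b024 b124 b034 b134 b234 b015 b025 b125 b035 b135 b235 b045 b145 b245 b345) 18 = b245 ∧ bt (cd20 b012 b013 b023 b123 b014 b024 b124 b034 b134 b234 b015 b025 b125 b035 b135 b235 b045 b145 b245 b345) 19 = b345 := by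
  unfold cd20
  refine ⟨?_, ?_, ?_, ?_, ?_, ?_, ?_, ?_, ?_, ?_, ?_, ?_, ?_, ?_, ?_, ?_, ?_, ?_, ?_, ?_⟩
  · exact bt_zero h0
  · rw [bt_succ h0]; exact bt_zero h1
  · rw [bt_succ h0, bt_succ h1]; exact bt_zero h2
  · rw [bt_succ h0, bt_succ h1, bt_succ h2]; exact bt_zero h3
  · rw [bt_succ h0, bt_succ h1, bt_succ h2, bt_succ h3]; exact bt_zero h4
  · rw [bt_succ h0, bt_succ h1, bt_succ h2, bt_succ h3, bt_succ h4]; exact bt_zero h5
  · rw [bt_succ h0, bt_succ h1, bt_succ h2, bt_succ h3, bt_succ h4, bt_succ h5]; exact bt_zero h6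
  · rw [bt_succ h0, bt_succ h1, bt_succ h2, bt_succ h3, bt_succ h4, bt_succ h5, bt_succ h6]; exact bt_zero h7
  · rw [bt_succ h0, bt_succ h1, bt_succ h2, bt_succ h3, bt_succ h4, bt_succ h5, bt_succ h6, bt_succ h7]; exact bt_zero h8
  · rw [bt_succ h0, bt_succ h1, bt_succ h2, bt_succ h3, bt_succ h4, bt_succ h5, bt_succ h6, bt_succ h7, bt_succ h8]; exact bt_zero h9
  · rw [bt_succ h0, bt_succ h1, bt_succ h2, bt_succ h3, bt_succ h4, bt_succ h5, bt_succ h6, bt_succ h7, bt_succ h8, bt_succ h9]; exact bt_zero h10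
  · rw [bt_succ h0, bt_succ h1, bt_succ h2, bt_succ h3, bt_succ h4, bt_succ h5, bt_succ h6, bt_succ h7, bt_succ h8, bt_succ h9, bt_succ h10]; exact bt_zero h11
  · rw [bt_succ h0, bt_succ h1, bt_succ h2, bt_succ h3, bt_succ h4, bt_succ h5, bt_succ h6, bt_succ h7, bt_succ h8, bt_succ h9, bt_succ h10, bt_succ h11]; exact bt_zero h12
  · rw [bt_succ h0, bt_succ h1, bt_succ h2, bt_succ h3, bt_succ h4, bt_succ h5, bt_succ h6, bt_succ h7, bt_succ h8, bt_succ h9, bt_succ h10, bt_succ h11, bt_succ h12]; exact bt_zero h13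
  · rw [bt_succ h0, bt_succ h1, bt_succ h2, bt_succ h3, bt_succ h4, bt_succ h5, bt_succ h6, bt_succ h7, bt_succ h8, bt_succ h9, bt_succ h10, bt_succ h11, bt_succ h12, bt_succ h13]; exact bt_zero h14
  · rw [bt_succ h0, bt_succ h1, bt_succ h2, bt_succ h3, bt_succ h4, bt_succ h5, bt_succ h6, bt_succ h7, bt_succ h8, bt_succ h9, bt_succ h10, bt_succ h11, bt_succ h12, bt_succ h13, bt_succ h14]; exact bt_zero h15
  · rw [bt_succ h0, bt_succ h1, bt_succ h2, bt_succ h3, bt_succ h4, bt_succ h5, bt_succ h6, bt_succ h7, bt_succ h8, bt_succ h9, bt_succ h10, bt_succ h11, bt_succ h12, bt_succ h13, bt_succ h14, bt_succ h15]; exact bt_zero h16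
  · rw [bt_succ h0, bt_succ h1, bt_succ h2, bt_succ h3, bt_succ h4, bt_succ h5, bt_succ h6, bt_succ h7, bt_succ h8, bt_succ h9, bt_succ h10, bt_succ h11, bt_succ h12, bt_succ h13, bt_succ h14, bt_succ h15, bt_succ h16]; exact bt_zero h17
  · rw [bt_succ h0, bt_succ h1, bt_succ h2, bt_succ h3, bt_succ h4, bt_succ h5, bt_succ h6, bt_succ h7, bt_succ h8, bt_succ h9, bt_succ h10, bt_succ h11, bt_succ h12, bt_succ h13, bt_succ h14, bt_succ h15, bt_succ h16, bt_succ h17]; exact bt_zero h18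
  · rw [bt_succ h0, bt_succ h1, bt_succ h2, bt_succ h3, bt_succ h4, bt_succ h5, bt_succ h6, bt_succ h7, bt_succ h8, bt_succ h9, bt_succ h10, bt_succ h11, bt_succ h12, bt_succ h13, bt_succ h14, bt_succ h15, bt_succ h16, bt_succ h17, bt_succ h18]; exact bt_last h19


/-- the test for all extensions of a structure on the first five vertices -/
def chkR (q4 : ℕ → ℕ → ℕ → ℕ) (q2 : ℕ → ℕ → ℕ) (ok : ℕ → ℕ → Bool) (b012 b013 b023 b123 b014 b024 b124 b034 b134 b234 : ℕ) : Bool :=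
  B2 fun b015 => B2 fun b025 => B2 fun b125 => B2 fun b035 => B2 fun b135 => B2 fun b235 => or (k5b b012 b013 b023 b123 b015 b025 b125 b035 b135 b235) (B2 fun b045 => B2 fun b145 => B2 fun b245 => or (k5b b012 b014 b024 b124 b015 b025 b125 b045 b145 b245) (B2 fun b345 => or (k5b b013 b014 b034 b134 b015 b035 b135 b045 b145 b345) (or (k5b b023 b024 b034 b234 b025 b035 b235 b045 b245 b345) (or (k5b b123 b124 b134 b234 b125 b135 b235 b145 b245 b345) (ok (Nat.add (leaf4 q4 b012 b013 b023 b123 b014 b024 b124 b034 b134 b234 b015 b025 b125 b035 b135 b235 b045 b145 b245 b345) (leaf2 q2 b012 b013 b023 b123 b014 b024 b124 b034 b134 b234 b015 b025 b125 b035 b135 b235 b045 b145 b245 b345)) (cd20 b012 b013 b023 b123 b014 b024 b124 b034 b134 b234 b015 b025 b125 b035 b135 b235 b045 b145 b245 b345))))))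

section
variable {V : Type} {E : V → V → V → ℕ}

/-- the code of a six-tuple -/
def code (E : V → V → V → ℕ) (x : Fin 6 → V) : ℕ :=
  cd20 (E (x 0) (x 1) (x 2)) (E (x 0) (x 1) (x 3)) (E (x 0) (x 2) (x 3)) (E (x 1) (x 2) (x 3)) (E (x 0) (x 1) (x 4)) (E (x 0) (x 2) (x 4)) (E (x 1) (x 2) (x 4)) (E (x 0) (x 3) (x 4)) (E (x 1) (x 3) (x 4)) (E (x 2) (x 3) (x 4)) (E (x 0) (x 1) (x 5)) (E (x 0) (x 2) (x 5)) (E (x 1) (x 2) (x 5)) (E (x 0) (x 3) (x 5)) (E (x 1) (x 3) (x 5)) (E (x 2) (x 3) (x 5)) (E (x 0) (x 4) (x 5)) (E (x 1) (x 4) (x 5)) (E (x 2) (x 4) (x 5)) (E (x 3) (x 4) (x 5))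

theorem code_eq (a b c d e f : V) : code E ![a, b, c, d, e, f] = cd20 (E a b c) (E a b d) (E a c d) (E b c d) (E a b e) (E a c e) (E b c e) (E a d e) (E b d e) (E c d e) (E a b f) (E a c f) (E b c f) (E a d f) (E b d f) (E c d f) (E a e f) (E b e f) (E c e f) (E d e f) := rfl

theorem chkR_sound (hE : Sy E) (hK : NoK5 E) {q4 : ℕ → ℕ → ℕ → ℕ} {q2 : ℕ → ℕ → ℕ} {ok : ℕ → ℕ → Bool}
    (a b c d e f : V)
    (h : chkR q4 q2 ok (E a b c) (E a b d) (E a c d) (E b c d) (E a b e) (E a c e) (E b c e) (E a d e) (E b d e) (E c d e) = true) :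
    ok (K4l E q4 a b c d e f + K2l E q2 a b c d e f) (code E ![a, b, c, d, e, f]) = true :=
  (or_false_left (or_false_left (or_false_left (B2_true (or_false_left (B2_true (B2_true (B2_true (or_false_left (B2_true (B2_true (B2_true (B2_true (B2_true (B2_true h (hE.b a b f)) (hE.b a c f)) (hE.b b c f)) (hE.b a d f)) (hE.b b d f)) (hE.b c d f)) (hK a b c d f)) (hE.b a e f)) (hE.b b e f)) (hE.b c e f)) (hK a b c e f)) (hE.b d e f)) (hK a b d e f)) (hK a c d e f)) (hK b c d e f))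


def GoodR (E : V → V → V → ℕ) (q4 : ℕ → ℕ → ℕ → ℕ) (q2 : ℕ → ℕ → ℕ) (R : ℕ → (Fin 6 → V) → Prop) (b012 b013 b023 b123 b014 b024 b124 b034 b134 b234 : ℕ) : Prop :=
  ∀ a b c d e f : V, E a b c = b012 → E a b d = b013 → E a c d = b023 → E b c d = b123 → E a b e = b014 → E a c e = b024 → E b c e = b124 → E a d e = b034 → E b d e = b134 → E c d e = b234 →
    R (L4 E q4 a b c d e f + L2 E q2 a b c d e f) ![a, b, c, d, e, f]


theorem rep_goodR (hE : Sy E) (hK : NoK5 E) {q4 : ℕ → ℕ → ℕ → ℕ} {q2 : ℕ → ℕ → ℕ} {ok : ℕ → ℕ → Bool}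
    {R : ℕ → (Fin 6 → V) → Prop} (hok : ∀ n x, ok n (code E x) = true → R n x)
    (hc : ∀ b012 b013 b023 b123 b014 b024 b124 b034 b134 b234 : ℕ, Bt b012 → Bt b013 → Bt b023 → Bt b123 → Bt b014 → Bt b024 → Bt b124 → Bt b034 → Bt b134 → Bt b234 → tg5 b012 b013 b023 b123 b014 b024 b124 b034 b134 b234 = 4 → chkR q4 q2 ok b012 b013 b023 b123 b014 b024 b124 b034 b134 b234 = true)
    (b012 b013 b023 b123 b014 b024 b124 b034 b134 b234 : ℕ) (ht : tg5 b012 b013 b023 b123 b014 b024 b124 b034 b134 b234 = 4) : GoodR E q4 q2 R b012 b013 b023 b123 b014 b024 b124 b034 b134 b234 := by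
  intro a b c d e f h0 h1 h2 h3 h4 h5 h6 h7 h8 h9
  subst h0 h1 h2 h3 h4 h5 h6 h7 h8 h9
  have h := hc _ _ _ _ _ _ _ _ _ _ (hE.b _ _ _) (hE.b _ _ _) (hE.b _ _ _) (hE.b _ _ _) (hE.b _ _ _) (hE.b _ _ _) (hE.b _ _ _) (hE.b _ _ _) (hE.b _ _ _) (hE.b _ _ _) ht
  have h2 := chkR_sound hE hK a b c d e f h
  rw [K4l_eq E q4 hE.h132 hE.h231 hE.h213 hE.h312, K2l_eq E q2 hE.h132 hE.h231 hE.h213 hE.h312] at h2
  exact hok _ _ h2


theorem goodR_sw0 (hE : Sy E) {q4 : ℕ → ℕ → ℕ → ℕ} {q2 : ℕ → ℕ → ℕ}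
    {R : ℕ → (Fin 6 → V) → Prop} (hR : ∀ n x (s : Fin 6 → Fin 6), (∀ i, s (s i) = i) → R n x → R n (x ∘ s))
    (hs4 : sym4 q4 = true) (hs2 : sym2 q2 = true) (b012 b013 b023 b123 b014 b024 b124 b034 b134 b234 : ℕ)
    (h : GoodR E q4 q2 R b012 b013 b123 b023 b014 b124 b024 b134 b034 b234) : GoodR E q4 q2 R b012 b013 b023 b123 b014 b024 b124 b034 b134 b234 := by
  intro a b c d e f h0 h1 h2 h3 h4 h5 h6 h7 h8 h9
  have h' := h b a c d e f ((hE.h213 _ _ _).trans h0) ((hE.h213 _ _ _).trans h1) h3 h2 ((hE.h213 _ _ _).trans h4) h6 h5 h8 h7 h9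
  rw [L4_sw0 hE hs4, L2_sw0 hE hs2] at h'
  have h2 := hR _ _ ![1, 0, 2, 3, 4, 5] (by decide) h'
  have e : ![b, a, c, d, e, f] ∘ ![1, 0, 2, 3, 4, 5] = ![a, b, c, d, e, f] := by
    funext i; fin_cases i <;> rfl
  rwa [e] at h2


theorem goodR_sw1 (hE : Sy E) {q4 : ℕ → ℕ → ℕ → ℕ} {q2 : ℕ → ℕ → ℕ}
    {R : ℕ → (Fin 6 → V) → Prop} (hR : ∀ n x (s : Fin 6 → Fin 6), (∀ i, s (s i) = i) → R n x → R n (x ∘ s))
    (hs4 : sym4 q4 = true) (hs2 : sym2 q2 = true) (b012 b013 b023 b123 b014 b024 b124 b034 b134 b234 : ℕ)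
    (h : GoodR E q4 q2 R b012 b023 b013 b123 b024 b014 b124 b034 b234 b134) : GoodR E q4 q2 R b012 b013 b023 b123 b014 b024 b124 b034 b134 b234 := by
  intro a b c d e f h0 h1 h2 h3 h4 h5 h6 h7 h8 h9
  have h' := h a c b d e f ((hE.h132 _ _ _).trans h0) h2 h1 ((hE.h213 _ _ _).trans h3) h5 h4 ((hE.h213 _ _ _).trans h6) h7 h9 h8
  rw [L4_sw1 hE hs4, L2_sw1 hE hs2] at h'
  have h2 := hR _ _ ![0, 2, 1, 3, 4, 5] (by decide) h'
  have e : ![a, c, b, d, e, f] ∘ ![0, 2, 1, 3, 4, 5] = ![a, b, c, d, e, f] := by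
    funext i; fin_cases i <;> rfl
  rwa [e] at h2


theorem goodR_sw2 (hE : Sy E) {q4 : ℕ → ℕ → ℕ → ℕ} {q2 : ℕ → ℕ → ℕ}
    {R : ℕ → (Fin 6 → V) → Prop} (hR : ∀ n x (s : Fin 6 → Fin 6), (∀ i, s (s i) = i) → R n x → R n (x ∘ s))
    (hs4 : sym4 q4 = true) (hs2 : sym2 q2 = true) (b012 b013 b023 b123 b014 b024 b124 b034 b134 b234 : ℕ)
    (h : GoodR E q4 q2 R b013 b012 b023 b123 b014 b034 b134 b024 b124 b234) : GoodR E q4 q2 R b012 b013 b023 b123 b014 b024 b124 b034 b134 b234 := by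
  intro a b c d e f h0 h1 h2 h3 h4 h5 h6 h7 h8 h9
  have h' := h a b d c e f h1 h0 ((hE.h132 _ _ _).trans h2) ((hE.h132 _ _ _).trans h3) h4 h7 h8 h5 h6 ((hE.h213 _ _ _).trans h9)
  rw [L4_sw2 hE hs4, L2_sw2 hE hs2] at h'
  have h2 := hR _ _ ![0, 1, 3, 2, 4, 5] (by decide) h'
  have e : ![a, b, d, c, e, f] ∘ ![0, 1, 3, 2, 4, 5] = ![a, b, c, d, e, f] := by
    funext i; fin_cases i <;> rfl
  rwa [e] at h2


theorem goodR_sw3 (hE : Sy E) {q4 : ℕ → ℕ → ℕ → ℕ} {q2 : ℕ → ℕ → ℕ}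
    {R : ℕ → (Fin 6 → V) → Prop} (hR : ∀ n x (s : Fin 6 → Fin 6), (∀ i, s (s i) = i) → R n x → R n (x ∘ s))
    (hs4 : sym4 q4 = true) (hs2 : sym2 q2 = true) (b012 b013 b023 b123 b014 b024 b124 b034 b134 b234 : ℕ)
    (h : GoodR E q4 q2 R b012 b014 b024 b124 b013 b023 b123 b034 b134 b234) : GoodR E q4 q2 R b012 b013 b023 b123 b014 b024 b124 b034 b134 b234 := by
  intro a b c d e f h0 h1 h2 h3 h4 h5 h6 h7 h8 h9
  have h' := h a b c e d f h0 h4 h5 h6 h1 h2 h3 ((hE.h132 _ _ _).trans h7) ((hE.h132 _ _ _).trans h8) ((hE.h132 _ _ _).trans h9)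
  rw [L4_sw3 hE hs4, L2_sw3 hE hs2] at h'
  have h2 := hR _ _ ![0, 1, 2, 4, 3, 5] (by decide) h'
  have e : ![a, b, c, e, d, f] ∘ ![0, 1, 2, 4, 3, 5] = ![a, b, c, d, e, f] := by
    funext i; fin_cases i <;> rfl
  rwa [e] at h2


theorem walk_goodR (hE : Sy E) {q4 : ℕ → ℕ → ℕ → ℕ} {q2 : ℕ → ℕ → ℕ}
    {R : ℕ → (Fin 6 → V) → Prop} (hR : ∀ n x (s : Fin 6 → Fin 6), (∀ i, s (s i) = i) → R n x → R n (x ∘ s))
    (hs4 : sym4 q4 = true) (hs2 : sym2 q2 = true)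
    (hr : ∀ b012 b013 b023 b123 b014 b024 b124 b034 b134 b234 : ℕ, tg5 b012 b013 b023 b123 b014 b024 b124 b034 b134 b234 = 4 → GoodR E q4 q2 R b012 b013 b023 b123 b014 b024 b124 b034 b134 b234) (n : ℕ) :
    ∀ b012 b013 b023 b123 b014 b024 b124 b034 b134 b234 : ℕ, walk5 n b012 b013 b023 b123 b014 b024 b124 b034 b134 b234 = true → GoodR E q4 q2 R b012 b013 b023 b123 b014 b024 b124 b034 b134 b234 := by
  induction n with
  | zero =>
    intro b012 b013 b023 b123 b014 b024 b124 b034 b134 b234 h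
    exact hr _ _ _ _ _ _ _ _ _ _ (Nat.eq_of_beq_eq_true h)
  | succ n ih =>
    intro b012 b013 b023 b123 b014 b024 b124 b034 b134 b234 h
    change (cond (Nat.beq (tg5 b012 b013 b023 b123 b014 b024 b124 b034 b134 b234) 4) true
      (cond (Nat.beq (tg5 b012 b013 b023 b123 b014 b024 b124 b034 b134 b234) 0) (walk5 n b012 b013 b123 b023 b014 b124 b024 b134 b034 b234)
      (cond (Nat.beq (tg5 b012 b013 b023 b123 b014 b024 b124 b034 b134 b234) 1) (walk5 n b012 b023 b013 b123 b024 b014 b124 b034 b234 b134)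
      (cond (Nat.beq (tg5 b012 b013 b023 b123 b014 b024 b124 b034 b134 b234) 2) (walk5 n b013 b012 b023 b123 b014 b034 b134 b024 b124 b234)
      (cond (Nat.beq (tg5 b012 b013 b023 b123 b014 b024 b124 b034 b134 b234) 3) (walk5 n b012 b014 b024 b124 b013 b023 b123 b034 b134 b234) false))))) = true at h
    cases h4 : Nat.beq (tg5 b012 b013 b023 b123 b014 b024 b124 b034 b134 b234) 4 with
    | true => exact hr _ _ _ _ _ _ _ _ _ _ (Nat.eq_of_beq_eq_true h4)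
    | false =>
    rw [h4] at h
    cases h0 : Nat.beq (tg5 b012 b013 b023 b123 b014 b024 b124 b034 b134 b234) 0 with
    | true => rw [h0] at h; exact goodR_sw0 hE hR hs4 hs2 _ _ _ _ _ _ _ _ _ _ (ih _ _ _ _ _ _ _ _ _ _ h)
    | false =>
    rw [h0] at h
    cases h1 : Nat.beq (tg5 b012 b013 b023 b123 b014 b024 b124 b034 b134 b234) 1 with
    | true => rw [h1] at h; exact goodR_sw1 hE hR hs4 hs2 _ _ _ _ _ _ _ _ _ _ (ih _ _ _ _ _ _ _ _ _ _ h)
    | false =>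
    rw [h1] at h
    cases h2 : Nat.beq (tg5 b012 b013 b023 b123 b014 b024 b124 b034 b134 b234) 2 with
    | true => rw [h2] at h; exact goodR_sw2 hE hR hs4 hs2 _ _ _ _ _ _ _ _ _ _ (ih _ _ _ _ _ _ _ _ _ _ h)
    | false =>
    rw [h2] at h
    cases h3 : Nat.beq (tg5 b012 b013 b023 b123 b014 b024 b124 b034 b134 b234) 3 with
    | true => rw [h3] at h; exact goodR_sw3 hE hR hs4 hs2 _ _ _ _ _ _ _ _ _ _ (ih _ _ _ _ _ _ _ _ _ _ h)
    | false => rw [h3] at h; simp at h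

theorem leafR_all (hE : Sy E) (hK : NoK5 E) {q4 : ℕ → ℕ → ℕ → ℕ} {q2 : ℕ → ℕ → ℕ} {ok : ℕ → ℕ → Bool}
    {R : ℕ → (Fin 6 → V) → Prop} (hR : ∀ n x (s : Fin 6 → Fin 6), (∀ i, s (s i) = i) → R n x → R n (x ∘ s))
    (hok : ∀ n x, ok n (code E x) = true → R n x)
    (hs4 : sym4 q4 = true) (hs2 : sym2 q2 = true)
    (hc : ∀ b012 b013 b023 b123 b014 b024 b124 b034 b134 b234 : ℕ, Bt b012 → Bt b013 → Bt b023 → Bt b123 → Bt b014 → Bt b024 → Bt b124 → Bt b034 → Bt b134 → Bt b234 → tg5 b012 b013 b023 b123 b014 b024 b124 b034 b134 b234 = 4 → chkR q4 q2 ok b012 b013 b023 b123 b014 b024 b124 b034 b134 b234 = true)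
    (a b c d e f : V) : R (L4 E q4 a b c d e f + L2 E q2 a b c d e f) ![a, b, c, d, e, f] := by
  have h := (B2_true (B2_true (B2_true (B2_true (B2_true (B2_true (B2_true (B2_true (B2_true (B2_true walk5_all (hE.b a b c)) (hE.b a b d)) (hE.b a c d)) (hE.b b c d)) (hE.b a b e)) (hE.b a c e)) (hE.b b c e)) (hE.b a d e)) (hE.b b d e)) (hE.b c d e))
  have hw := or_false_left h (hK a b c d e)
  exact walk_goodR hE hR hs4 hs2 (fun b012 b013 b023 b123 b014 b024 b124 b034 b134 b234 h4 => rep_goodR hE hK hok hc b012 b013 b023 b123 b014 b024 b124 b034 b134 b234 h4) _ _ _ _ _ _ _ _ _ _ _ hw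
    a b c d e f rfl rfl rfl rfl rfl rfl rfl rfl rfl rfl

end

section
variable {V : Type} [Fintype V] (E : V → V → V → ℕ)

theorem boundR (hE : Sy E) (K K2 : ℕ) (Q : (Fin 6 → V) → ℤ)
    (q4 : ℕ → ℕ → ℕ → ℕ) (W : ℕ → ℕ → ℕ) (l : ℕ → ℕ → ℕ → ℕ)
    (q2 : ℕ → ℕ → ℕ) (W2 : ℕ → ℕ) (l2 : ℕ → ℕ → ℕ) (B O4 O2 : ℤ) (t : ℕ → ℤ)
    (hq4 : ∀ c i j, c < 16 → i < 64 → j < 64 → (q4 c i j : ℤ) =
      ∑ k ∈ range K, (W c k : ℤ) * ((l c i k : ℤ) - B) * ((l c j k : ℤ) - B) + O4)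
    (hq2 : ∀ i j, i < 16 → j < 16 → (q2 i j : ℤ) =
      ∑ k ∈ range K2, (W2 k : ℤ) * ((l2 i k : ℤ) - B) * ((l2 j k : ℤ) - B) + (O2 + t (kk i j)))
    (hleaf : ∀ a b c d e f : V, ((L4 E q4 a b c d e f + L2 E q2 a b c d e f : ℕ) : ℤ) ≤
      Q ![a, b, c, d, e, f]) :
    45 * T2 E t + (15 * O4 + 45 * O2) * (Fintype.card V : ℤ) ^ 6 ≤ ∑ x : Fin 6 → V, Q x := by
  have A4 := lower4 E hE K q4 W l B O4 (fun _ => 0) (fun c i j hc hi hj => by
    rw [hq4 c i j hc hi hj, add_zero])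
  have hz : Sv E (fun _ => 0) = 0 := by unfold Sv; simp
  rw [hz] at A4
  have A2 := lower2t E hE K2 q2 W2 l2 B O2 t hq2
  have key : ∑ x : Fin 6 → V, ((L4 E q4 (x 0) (x 1) (x 2) (x 3) (x 4) (x 5) : ℤ)
      + (L2 E q2 (x 0) (x 1) (x 2) (x 3) (x 4) (x 5) : ℤ)) ≤ ∑ x : Fin 6 → V, Q x := by
    refine sum_le_sum fun x _ => ?_
    have h := hleaf (x 0) (x 1) (x 2) (x 3) (x 4) (x 5)
    have e : ![x 0, x 1, x 2, x 3, x 4, x 5] = x := by
      funext i; fin_cases i <;> rfl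
    rw [e] at h
    push_cast at h
    exact h
  rw [sum_add_distrib, sumL4 E q4, sumL2 E q2] at key
  linarith

end
end Pool.Agent.Q306.FK
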