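import Mathlib

/-! Definitions for the results on 3-graphs without a complete 3-graph on five vertices. -/

set_option autoImplicit false
open Finset

namespace Pool.Agent.Q306.FK

/-- all members have three elements -/
def ThreeGraph {m : ℕ} (F : Finset (Finset (Fin m))) : Prop := ∀ e ∈ F, e.card = 3

/-- no five vertices span all ten triples -/
def K53Free {n : ℕ} (H : Finset (Finset (Fin n))) : Prop :=
  ∀ S : Finset (Fin n), S.card = 5 → ∃ t ⊆ S, t.card = 3 ∧ t ∉ H

/-- `H` contains a copy of `F`, not necessarily an induced one -/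
def Contains {m n : ℕ} (F : Finset (Finset (Fin m))) (H : Finset (Finset (Fin n))) : Prop :=
  ∃ f : Fin m → Fin n, Function.Injective f ∧ ∀ e ∈ F, e.image f ∈ H

/-- there is a map of the vertices which sends each edge of `F` to an edge of `G` -/
def MapsInto {m k : ℕ} (F : Finset (Finset (Fin m))) (G : Finset (Finset (Fin k))) : Prop :=
  ∃ c : Fin m → Fin k, ∀ e ∈ F, e.image c ∈ G

/-- the vertices have a colouring with two colours in which no edge has only one colour -/
def TwoColourable {m : ℕ} (F : Finset (Finset (Fin m))) : Prop :=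
  ∃ g : Fin m → Bool, ∀ e ∈ F, ∃ i ∈ e, ∃ j ∈ e, g i ≠ g j

/-- the complete 3-graph on six vertices without the edges of `N` -/
def without (N : Finset (Finset (Fin 6))) : Finset (Finset (Fin 6)) :=
  (univ : Finset (Fin 6)).powersetCard 3 \ N

/-- 16 of the 20 triples of six points -/
def GA : Finset (Finset (Fin 6)) := without {{1, 2, 3}, {0, 1, 5}, {2, 4, 5}, {3, 4, 5}}

/-- 15 of the 20 triples of six points -/
def GB : Finset (Finset (Fin 6)) :=
  without {{0, 1, 4}, {1, 2, 5}, {1, 3, 5}, {2, 4, 5}, {3, 4, 5}}

/-- 15 of the 20 triples of six points -/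
def GC : Finset (Finset (Fin 6)) :=
  without {{1, 2, 3}, {0, 2, 5}, {1, 3, 5}, {2, 4, 5}, {3, 4, 5}}

/-- the number of sets of six vertices of `H` which contain a copy of `G` -/
def copies (G : Finset (Finset (Fin 6))) {n : ℕ} (H : Finset (Finset (Fin n))) : ℕ :=
  (((univ : Finset (Fin n)).powersetCard 6).filter fun S =>
    ∃ f : Fin 6 → Fin n, Function.Injective f ∧ univ.image f = S ∧ ∀ e ∈ G, e.image f ∈ H).card

/-- the complete bipartite 3-graph: the triples that meet both `A` and its complement -/
def twoClass {n : ℕ} (A : Finset (Fin n)) : Finset (Finset (Fin n)) :=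
  univ.filter fun e => e.card = 3 ∧ ¬ e ⊆ A ∧ ¬ e ⊆ Aᶜ

open scoped Classical in
/-- the largest number of edges of a 3-graph on `n` vertices which contains neither a complete
3-graph on five vertices nor a copy of `F` -/
noncomputable def ex {m : ℕ} (F : Finset (Finset (Fin m))) (n : ℕ) : ℕ :=
  ((univ : Finset (Finset (Finset (Fin n)))).filter fun H =>
    ThreeGraph H ∧ K53Free H ∧ ¬ Contains F H).sup card

end Pool.Agent.Q306.FK
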