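import Pool.Agent.Q306.FK.Cnt

/-! The distance to a complete bipartite 3-graph is bounded by the number of six-tuples which are
not complete bipartite. -/

set_option autoImplicit false
set_option maxRecDepth 100000
set_option maxHeartbeats 4000000
open Finset

namespace Pool.Agent.Q306.FK
open Pool.Agent.H122R2.N6 Pool.Agent.H37R3.Pen Pool.Agent.H37R3.Cop Pool.Agent.H37R3.K5

variable {n : ℕ}

/-- many triples of vertices are not edges -/
theorem many_non {E : Fin n → Fin n → Fin n → ℕ} (hE : Sy E) (hK : NoK5 E) :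
    (n : ℤ) ^ 5 ≤ 10 * (n : ℤ) ^ 2 * ∑ a, ∑ b, ∑ c, (1 - (E a b c : ℤ)) := by
  have h1 : ∀ a b c d e : Fin n, (1 : ℤ) ≤ (1 - (E a b c : ℤ)) + (1 - (E a b d : ℤ)) +
      (1 - (E a c d : ℤ)) + (1 - (E b c d : ℤ)) + (1 - (E a b e : ℤ)) + (1 - (E a c e : ℤ)) +
      (1 - (E b c e : ℤ)) + (1 - (E a d e : ℤ)) + (1 - (E b d e : ℤ)) + (1 - (E c d e : ℤ)) := by
    intro a b c d e
    have h := hK a b c d e
    have b0 := hE.b a b c
    have b1 := hE.b a b d
    have b2 := hE.b a c d
    have b3 := hE.b b c d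
    have b4 := hE.b a b e
    have b5 := hE.b a c e
    have b6 := hE.b b c e
    have b7 := hE.b a d e
    have b8 := hE.b b d e
    have b9 := hE.b c d e
    unfold Bt at b0 b1 b2 b3 b4 b5 b6 b7 b8 b9
    have h2 : ¬ (E a b c + (E a b d + (E a c d + (E b c d + (E a b e + (E a c e + (E b c e +
        (E a d e + (E b d e + E c d e)))))))) = 10) := by
      intro h3
      have : k5b (E a b c) (E a b d) (E a c d) (E b c d) (E a b e) (E a c e) (E b c e) (E a d e)
          (E b d e) (E c d e) = true := by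
        unfold k5b
        simp only [Nat.add_eq]
        rw [h3]
        rfl
      rw [h] at this
      exact absurd this (by decide)
    omega
  have h2 : (n : ℤ) ^ 5 = ∑ a : Fin n, ∑ b : Fin n, ∑ c : Fin n, ∑ d : Fin n, ∑ e : Fin n, (1 : ℤ) := by
    simp only [sum_const, card_univ, Fintype.card_fin, nsmul_eq_mul, mul_one]
    ring
  have h3 := h2.le.trans (sum_le_sum fun a _ => sum_le_sum fun b _ => sum_le_sum fun c _ =>
    sum_le_sum fun d _ => sum_le_sum fun e _ => h1 a b c d e)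
  simp only [sum_add_distrib, sum_const, card_univ, Fintype.card_fin, nsmul_eq_mul] at h3
  simp only [← mul_sum] at h3
  linarith

theorem pat_agree {E : Fin n → Fin n → Fin n → ℕ} {a b c x y z : Fin n}
    (h : IsBip E ![a, b, c, x, y, z]) (h0 : E a b c = 0) :
    (E x y z = 1 ↔ ¬ ((E a b x = 1 ↔ E a b y = 1) ∧ (E a b y = 1 ↔ E a b z = 1))) := by
  obtain ⟨g, hg⟩ := h
  have e0 := hg 0 1 2 (by decide) (by decide) (by decide)
  have e1 := hg 0 1 3 (by decide) (by decide) (by decide)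
  have e2 := hg 0 1 4 (by decide) (by decide) (by decide)
  have e3 := hg 0 1 5 (by decide) (by decide) (by decide)
  have e4 := hg 3 4 5 (by decide) (by decide) (by decide)
  change E a b c = _ at e0
  change E a b x = _ at e1
  change E a b y = _ at e2
  change E a b z = _ at e3
  change E x y z = _ at e4
  rw [h0] at e0
  rw [e1, e2, e3, e4]
  unfold pg at e0 ⊢
  revert e0
  cases g 0 <;> cases g 1 <;> cases g 2 <;> cases g 3 <;> cases g 4 <;> cases g 5 <;>
    decide

theorem stab {H : Finset (Finset (Fin n))} (hH : ThreeGraph H) (hF : FK.K53Free H) :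
    ∃ A : Finset (Fin n), n ^ 3 * (symmDiff H (twoClass A)).card ≤
      2 * ∑ x : Fin 6 → Fin n, YB (tn H) x := by
  classical
  rcases Nat.eq_zero_or_pos n with rfl | hn
  · exact ⟨∅, by simp⟩
  set E := tn H with hEdef
  have hE : Sy E := tn_sy H
  have hK : NoK5 E := tn_noK5 hH hF
  -- the number of bad triples for a root
  set Mr : Fin n → Fin n → Fin n → ℕ := fun a b c =>
    ∑ x, ∑ y, ∑ z, YB E ![a, b, c, x, y, z] with hMr
  have hsum : ∑ x : Fin 6 → Fin n, YB E x = ∑ a, ∑ b, ∑ c, Mr a b c := by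
    have := conv6 (V := Fin n) (fun a b c d e f => ((YB E ![a, b, c, d, e, f] : ℕ) : ℤ))
    have e : ∀ x : Fin 6 → Fin n, ![x 0, x 1, x 2, x 3, x 4, x 5] = x := by
      intro x; funext i; fin_cases i <;> rfl
    simp only [e] at this
    exact_mod_cast this
  have hnon := many_non hE hK
  have hn' : (0 : ℤ) < n := by exact_mod_cast hn
  -- a root which is not an edge and has few bad triples
  have hroot : ∃ a b c, E a b c = 0 ∧ n ^ 3 * Mr a b c ≤ 10 * ∑ x : Fin 6 → Fin n, YB E x := by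
    by_contra hcon
    push Not at hcon
    rw [hsum] at hcon
    obtain ⟨M, hM⟩ : ∃ M, M = ∑ a, ∑ b, ∑ c, Mr a b c := ⟨_, rfl⟩
    rw [← hM] at hcon
    have hM' : (n : ℤ) ^ 3 * (M : ℤ) = ∑ a, ∑ b, ∑ c, (n : ℤ) ^ 3 * (Mr a b c : ℤ) := by
      rw [hM]
      push_cast
      simp only [mul_sum]
    have h1 : ∀ a b c : Fin n, (1 - (E a b c : ℤ)) * (10 * (M : ℤ) + 1) ≤
        (n : ℤ) ^ 3 * (Mr a b c : ℤ) := by
      intro a b c
      rcases hE.b a b c with h | h
      · have h2 : (10 * (M : ℤ)) < (n : ℤ) ^ 3 * (Mr a b c : ℤ) := by exact_mod_cast hcon a b c h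
        rw [h]
        push_cast
        linarith
      · rw [h]
        push_cast
        have : (0 : ℤ) ≤ (n : ℤ) ^ 3 * (Mr a b c : ℤ) := by positivity
        linarith
    obtain ⟨T, hT⟩ : ∃ T, T = ∑ a, ∑ b, ∑ c, (1 - (E a b c : ℤ)) := ⟨_, rfl⟩
    have h2 : T * (10 * (M : ℤ) + 1) ≤ (n : ℤ) ^ 3 * (M : ℤ) := by
      rw [hM', hT, sum_mul]
      refine sum_le_sum fun a _ => ?_
      rw [sum_mul]
      refine sum_le_sum fun b _ => ?_
      rw [sum_mul]
      exact sum_le_sum fun c _ => h1 a b c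
    rw [← hT] at hnon
    clear hM hM' hT h1 hcon hsum
    have h3 : (0 : ℤ) ≤ 10 * (M : ℤ) + 1 := by positivity
    have h4 := mul_le_mul_of_nonneg_right hnon h3
    have h5 := mul_le_mul_of_nonneg_left h2 (show (0 : ℤ) ≤ 10 * (n : ℤ) ^ 2 by positivity)
    have h6 : (n : ℤ) ^ 5 * (10 * (M : ℤ) + 1) ≤ 10 * (n : ℤ) ^ 2 * ((n : ℤ) ^ 3 * (M : ℤ)) := by
      refine h4.trans ?_
      have e : 10 * (n : ℤ) ^ 2 * T * (10 * (M : ℤ) + 1) =
        10 * (n : ℤ) ^ 2 * (T * (10 * (M : ℤ) + 1)) := by ring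
      rw [e]
      exact h5
    have h7 : (0 : ℤ) < (n : ℤ) ^ 5 := by positivity
    have h8 : (n : ℤ) ^ 5 * (10 * (M : ℤ) + 1) = 10 * (n : ℤ) ^ 2 * ((n : ℤ) ^ 3 * (M : ℤ)) +
        (n : ℤ) ^ 5 := by ring
    linarith
  obtain ⟨a, b, c, h0, hM⟩ := hroot
  refine ⟨univ.filter fun v => E a b v = 1, ?_⟩
  set A : Finset (Fin n) := univ.filter fun v => E a b v = 1 with hA
  have hmemA : ∀ v, v ∈ A ↔ E a b v = 1 := fun v => by rw [hA, mem_filter]; simp
  have hkey : ∀ x y z : Fin n, x ≠ y → x ≠ z → y ≠ z →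
      ({x, y, z} : Finset (Fin n)) ∈ symmDiff H (twoClass A) → YB E ![a, b, c, x, y, z] = 1 := by
    intro x y z hxy hxz hyz hm
    unfold YB
    rw [if_neg]
    intro hb
    have h1 := pat_agree hb h0
    have h2 : ({x, y, z} : Finset (Fin n)) ∈ twoClass A ↔
        ¬ ((E a b x = 1 ↔ E a b y = 1) ∧ (E a b y = 1 ↔ E a b z = 1)) := by
      unfold twoClass
      rw [mem_filter]
      have h3 : ({x, y, z} : Finset (Fin n)).card = 3 := by
        rw [card_insert_of_notMem, card_insert_of_notMem, card_singleton]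
        · simpa using hyz
        · simpa using ⟨hxy, hxz⟩
      simp only [insert_subset_iff, singleton_subset_iff, mem_compl, hmemA, h3, mem_univ,
        true_and]
      tauto
    have h3 : E x y z = 1 ↔ ({x, y, z} : Finset (Fin n)) ∈ H := tn_one
    rw [mem_symmDiff] at hm
    rw [h3] at h1
    rw [← h2] at h1
    tauto
  have h6 : 6 * (symmDiff H (twoClass A)).card ≤ Mr a b c := by
    have hD : ∀ e ∈ symmDiff H (twoClass A), e.card = 3 := by
      intro e he
      rw [mem_symmDiff] at he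
      rcases he with ⟨h, -⟩ | ⟨h, -⟩
      · exact hH e h
      · exact twoClass_three A e h
    refine (tn_card (H := symmDiff H (twoClass A)) hD).trans ?_
    rw [hMr]
    refine sum_le_sum fun x _ => sum_le_sum fun y _ => sum_le_sum fun z _ => ?_
    unfold tn
    split_ifs with h
    · obtain ⟨q1, q2, q3⟩ := dist3 (H := symmDiff H (twoClass A)) hD h
      rw [hkey x y z q1 q2 q3 h]
    · exact Nat.zero_le _
  have h7 := Nat.mul_le_mul_left (n ^ 3) h6
  have h8 := h7.trans hM
  have h9 : 6 * (n ^ 3 * (symmDiff H (twoClass A)).card) ≤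
      10 * ∑ x : Fin 6 → Fin n, YB E x := by
    calc _ = n ^ 3 * (6 * (symmDiff H (twoClass A)).card) := by ring
      _ ≤ _ := h8
  omega

end Pool.Agent.Q306.FK
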