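import Pool.Agent.Q306.FK.Core

/-! The meaning of the tests on codes of six-vertex structures. -/

set_option autoImplicit false
set_option maxRecDepth 100000
set_option maxHeartbeats 4000000
open Finset

namespace Pool.Agent.Q306.FK
open Pool.Agent.H122R2.N6 Pool.Agent.H37R3.Pen Pool.Agent.H37R3.Cop Pool.Agent.H37R3.K5

/-- the code occurs in a list of codes with embeddings -/
def inL (c : ℕ) (L : List (ℕ × ℕ)) : Bool := List.rec false (fun d _ ih => or (Nat.beq c d.1) ih) L

theorem inL_true {c : ℕ} {L : List (ℕ × ℕ)} (h : inL c L = true) : ∃ d ∈ L, c = d.1 := by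
  induction L with
  | nil =>
    have h' : false = true := h
    exact absurd h' (by decide)
  | cons d L ih =>
    have h' : (Nat.beq c d.1 || inL c L) = true := h
    rw [Bool.or_eq_true] at h'
    rcases h' with h' | h'
    · exact ⟨d, List.mem_cons_self, Nat.eq_of_beq_eq_true h'⟩
    · obtain ⟨e, he, hf⟩ := ih h'
      exact ⟨e, List.mem_cons_of_mem _ he, hf⟩

theorem expand (s : Finset ℕ) (w u v : ℕ → ℕ) (B : ℤ) :
    ∑ k ∈ s, (w k : ℤ) * ((u k : ℤ) - B) * ((v k : ℤ) - B) =
      ∑ k ∈ s, (w k : ℤ) * ((u k : ℤ) * (v k : ℤ)) + B ^ 2 * ∑ k ∈ s, (w k : ℤ)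
        - B * (∑ k ∈ s, (w k : ℤ) * (u k : ℤ) + ∑ k ∈ s, (w k : ℤ) * (v k : ℤ)) := by
  rw [mul_add, mul_sum, mul_sum, mul_sum, ← sum_add_distrib, ← sum_add_distrib, ← sum_sub_distrib]
  exact sum_congr rfl fun k _ => by ring

/-- a property of triples of different positions that is invariant under permutations holds if it
holds for increasing triples -/
theorem of_sorted {P : Fin 6 → Fin 6 → Fin 6 → Prop} (h213 : ∀ i j k, P i j k → P j i k)
    (h132 : ∀ i j k, P i j k → P i k j) (h : ∀ i j k, i < j → j < k → P i j k)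
    (i j k : Fin 6) (hij : i ≠ j) (hik : i ≠ k) (hjk : j ≠ k) : P i j k := by
  rcases lt_or_gt_of_ne hij with h1 | h1 <;> rcases lt_or_gt_of_ne hik with h2 | h2 <;>
    rcases lt_or_gt_of_ne hjk with h3 | h3
  · exact h i j k h1 h3
  · exact h132 _ _ _ (h i k j h2 h3)
  · exact absurd (h1.trans h3) (not_lt.mpr h2.le)
  · exact h132 _ _ _ (h213 _ _ _ (h k i j h2 h1)) |> fun q => by
      have := h k i j h2 h1
      exact h132 _ _ _ (h213 _ _ _ this)
  · exact h213 _ _ _ (h j i k h1 h2)
  · exact absurd (h1.trans h2) (not_lt.mpr h3.le)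
  · have := h j k i h3 h2
    exact h213 _ _ _ (h132 _ _ _ this)
  · have := h k j i h3 h1
    exact h213 _ _ _ (h132 _ _ _ (h213 _ _ _ this))

section
variable {V : Type} {E : V → V → V → ℕ}

theorem code_bt (hE : Sy E) (x : Fin 6 → V) (i j k : Fin 6) (hij : i ≠ j) (hik : i ≠ k)
    (hjk : j ≠ k) : E (x i) (x j) (x k) = bt (code E x) (ti i j k) := by
  revert i j k
  intro i j k hij hik hjk
  refine of_sorted (P := fun i j k => E (x i) (x j) (x k) = bt (code E x) (ti i j k)) ?_ ?_ ?_
    i j k hij hik hjk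
  · intro i j k h
    rw [hE.h213, ti_213]; exact h
  · intro i j k h
    rw [hE.h132, ti_132]; exact h
  · intro i j k h1 h2
    obtain ⟨g0, g1, g2, g3, g4, g5, g6, g7, g8, g9, g10, g11, g12, g13, g14, g15, g16, g17, g18, g19⟩ :=
      bt_cd20 (hE.b (x 0) (x 1) (x 2)) (hE.b (x 0) (x 1) (x 3)) (hE.b (x 0) (x 2) (x 3))
        (hE.b (x 1) (x 2) (x 3)) (hE.b (x 0) (x 1) (x 4)) (hE.b (x 0) (x 2) (x 4))
        (hE.b (x 1) (x 2) (x 4)) (hE.b (x 0) (x 3) (x 4)) (hE.b (x 1) (x 3) (x 4))
        (hE.b (x 2) (x 3) (x 4)) (hE.b (x 0) (x 1) (x 5)) (hE.b (x 0) (x 2) (x 5))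
        (hE.b (x 1) (x 2) (x 5)) (hE.b (x 0) (x 3) (x 5)) (hE.b (x 1) (x 3) (x 5))
        (hE.b (x 2) (x 3) (x 5)) (hE.b (x 0) (x 4) (x 5)) (hE.b (x 1) (x 4) (x 5))
        (hE.b (x 2) (x 4) (x 5)) (hE.b (x 3) (x 4) (x 5))
    unfold code
    fin_cases i <;> fin_cases j <;> first | exact absurd h1 (by decide) | skip
    all_goals fin_cases k <;> first | exact absurd h2 (by decide) | skip
    exacts [g0.symm, g1.symm, g4.symm, g10.symm, g2.symm, g5.symm, g11.symm, g7.symm, g13.symm,
      g16.symm, g3.symm, g6.symm, g12.symm, g8.symm, g14.symm, g17.symm, g9.symm, g15.symm,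
      g18.symm, g19.symm]

/-! ### Copies of a pattern -/

/-- the six-tuple contains a copy of the pattern `m` -/
def RelS (E : V → V → V → ℕ) (m : ℕ) (x : Fin 6 → V) : Prop :=
  ∃ g : Fin 6 → Fin 6, Function.Injective g ∧
    ∀ i j k : Fin 6, i < j → j < k → bt m (ti i j k) = 1 → E (x (g i)) (x (g j)) (x (g k)) = 1

open scoped Classical in
noncomputable def XS (E : V → V → V → ℕ) (m : ℕ) (x : Fin 6 → V) : ℕ := if RelS E m x then 1 else 0

theorem RelS_comp {m : ℕ} {x : Fin 6 → V} (s : Fin 6 → Fin 6) (hs : ∀ i, s (s i) = i)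
    (h : RelS E m x) : RelS E m (x ∘ s) := by
  obtain ⟨g, hg, hc⟩ := h
  refine ⟨s ∘ g, ?_, ?_⟩
  · intro i j hij
    apply hg
    have := congrArg s hij
    simpa [hs] using this
  · intro i j k hij hjk hm
    simp only [Function.comp, hs]
    exact hc i j k hij hjk hm

theorem comp_comp (x : Fin 6 → V) {s : Fin 6 → Fin 6} (hs : ∀ i, s (s i) = i) : (x ∘ s) ∘ s = x := by
  funext i; simp [hs]

theorem XS_comp {m : ℕ} (x : Fin 6 → V) {s : Fin 6 → Fin 6} (hs : ∀ i, s (s i) = i) :
    XS E m (x ∘ s) = XS E m x := by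
  have key : RelS E m (x ∘ s) ↔ RelS E m x := by
    constructor
    · intro h
      have := RelS_comp s hs h
      rwa [comp_comp x hs] at this
    · exact RelS_comp s hs
  unfold XS
  by_cases h : RelS E m x
  · rw [if_pos h, if_pos (key.mpr h)]
  · rw [if_neg h, if_neg fun h' => h (key.mp h')]

/-- `p` codes an injective map which embeds the pattern `m` into the structure `c` -/
def embB (c m p : ℕ) : Bool :=
  decide (Function.Injective (gp p)) &&
  decide (∀ i j k : Fin 6, i < j → j < k → bt m (ti i j k) = 1 →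
    bt c (ti (gp p i) (gp p j) (gp p k)) = 1)

def embL (m : ℕ) (L : List (ℕ × ℕ)) : Bool := L.all fun d => embB d.1 m d.2

theorem XS_of_inL (hE : Sy E) {m : ℕ} {L : List (ℕ × ℕ)} (hL : embL m L = true) {x : Fin 6 → V}
    (h : inL (code E x) L = true) : XS E m x = 1 := by
  obtain ⟨d, hd, he⟩ := inL_true h
  unfold embL at hL
  rw [List.all_eq_true] at hL
  have h1 := hL d hd
  unfold embB at h1
  rw [Bool.and_eq_true, decide_eq_true_eq, decide_eq_true_eq] at h1
  unfold XS
  rw [if_pos]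
  refine ⟨gp d.2, h1.1, ?_⟩
  intro i j k hij hjk hm
  rw [code_bt hE x _ _ _ (fun e => hij.ne (h1.1 e)) (fun e => (hij.trans hjk).ne (h1.1 e))
    (fun e => hjk.ne (h1.1 e)), he]
  exact h1.2 i j k hij hjk hm

/-! ### Complete bipartite structures -/

/-- the values of the complete bipartite 3-graph of a division of six points -/
def pg (g : Fin 6 → Bool) (i j k : Fin 6) : ℕ := cond (g i == g j && g j == g k) 0 1

theorem pg_213 (g : Fin 6 → Bool) (i j k : Fin 6) : pg g j i k = pg g i j k := by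
  unfold pg
  cases g i <;> cases g j <;> cases g k <;> rfl
theorem pg_132 (g : Fin 6 → Bool) (i j k : Fin 6) : pg g i k j = pg g i j k := by
  unfold pg
  cases g i <;> cases g j <;> cases g k <;> rfl
theorem pg_bt (g : Fin 6 → Bool) (i j k : Fin 6) : Bt (pg g i j k) := by
  unfold pg
  cases g i <;> cases g j <;> cases g k <;> first | exact Or.inl rfl | exact Or.inr rfl

/-- the six-tuple is a complete bipartite structure with sides `g` -/
def HasPat (E : V → V → V → ℕ) (x : Fin 6 → V) (g : Fin 6 → Bool) : Prop :=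
  ∀ i j k : Fin 6, i ≠ j → i ≠ k → j ≠ k → E (x i) (x j) (x k) = pg g i j k

def codeG (g : Fin 6 → Bool) : ℕ := cd20 (pg g 0 1 2) (pg g 0 1 3) (pg g 0 2 3) (pg g 1 2 3) (pg g 0 1 4) (pg g 0 2 4) (pg g 1 2 4) (pg g 0 3 4) (pg g 1 3 4) (pg g 2 3 4) (pg g 0 1 5) (pg g 0 2 5) (pg g 1 2 5) (pg g 0 3 5) (pg g 1 3 5) (pg g 2 3 5) (pg g 0 4 5) (pg g 1 4 5) (pg g 2 4 5) (pg g 3 4 5)

theorem codeG_bt (g : Fin 6 → Bool) (i j k : Fin 6) (hij : i ≠ j) (hik : i ≠ k) (hjk : j ≠ k) :
    pg g i j k = bt (codeG g) (ti i j k) :=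
  code_bt (E := pg g) ⟨pg_bt g, pg_213 g, pg_132 g⟩ id i j k hij hik hjk

theorem HasPat_iff (hE : Sy E) (x : Fin 6 → V) (g : Fin 6 → Bool) :
    HasPat E x g ↔ code E x = codeG g := by
  constructor
  · intro h
    unfold code codeG
    rw [h 0 1 2 (by decide) (by decide) (by decide), h 0 1 3 (by decide) (by decide) (by decide),
      h 0 2 3 (by decide) (by decide) (by decide), h 1 2 3 (by decide) (by decide) (by decide),
      h 0 1 4 (by decide) (by decide) (by decide), h 0 2 4 (by decide) (by decide) (by decide),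
      h 1 2 4 (by decide) (by decide) (by decide), h 0 3 4 (by decide) (by decide) (by decide),
      h 1 3 4 (by decide) (by decide) (by decide), h 2 3 4 (by decide) (by decide) (by decide),
      h 0 1 5 (by decide) (by decide) (by decide), h 0 2 5 (by decide) (by decide) (by decide),
      h 1 2 5 (by decide) (by decide) (by decide), h 0 3 5 (by decide) (by decide) (by decide),
      h 1 3 5 (by decide) (by decide) (by decide), h 2 3 5 (by decide) (by decide) (by decide),
      h 0 4 5 (by decide) (by decide) (by decide), h 1 4 5 (by decide) (by decide) (by decide),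
      h 2 4 5 (by decide) (by decide) (by decide), h 3 4 5 (by decide) (by decide) (by decide)]
  · intro h i j k hij hik hjk
    rw [code_bt hE x i j k hij hik hjk, h, ← codeG_bt g i j k hij hik hjk]

def IsBip (E : V → V → V → ℕ) (x : Fin 6 → V) : Prop := ∃ g, HasPat E x g

open scoped Classical in
noncomputable def YB (E : V → V → V → ℕ) (x : Fin 6 → V) : ℕ := if IsBip E x then 0 else 1

theorem HasPat_comp {x : Fin 6 → V} {g : Fin 6 → Bool} {s : Fin 6 → Fin 6} (hs : ∀ i, s (s i) = i)
    (h : HasPat E x g) : HasPat E (x ∘ s) (g ∘ s) := by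
  intro i j k hij hik hjk
  have hinj : ∀ i j, s i = s j → i = j := fun i j e => by
    have := congrArg s e
    rwa [hs, hs] at this
  exact h (s i) (s j) (s k) (fun e => hij (hinj _ _ e)) (fun e => hik (hinj _ _ e))
    (fun e => hjk (hinj _ _ e))

theorem YB_comp (x : Fin 6 → V) {s : Fin 6 → Fin 6} (hs : ∀ i, s (s i) = i) :
    YB E (x ∘ s) = YB E x := by
  have key : IsBip E (x ∘ s) ↔ IsBip E x := by
    constructor
    · rintro ⟨g, h⟩
      have := HasPat_comp hs h
      rw [comp_comp x hs] at this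
      exact ⟨_, this⟩
    · rintro ⟨g, h⟩
      exact ⟨_, HasPat_comp hs h⟩
  unfold YB
  by_cases h : IsBip E x
  · rw [if_pos h, if_pos (key.mpr h)]
  · rw [if_neg h, if_neg fun h' => h (key.mp h')]

/-- the codes of complete bipartite structures -/
def BLS : List ℕ := [0, 76983, 152923, 228863, 301677, 376575, 450431, 524286, 582542, 651199, 718815, 786429, 850927, 917499, 983031, 984048, 995319, 1005563, 1015791, 1022973, 1032159, 1040319, 1041406, 1044351, 1046271, 1047039, 1047552, 1047735, 1047899, 1048173, 1048462, 1048560]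

def inB (c : ℕ) : Bool := anyL BLS fun d => Nat.beq c d

theorem BLS_sub : ∀ d ∈ BLS, ∃ g : Fin 6 → Bool, codeG g = d := by decide +kernel

theorem YB_of_inB (hE : Sy E) {x : Fin 6 → V} (h : inB (code E x) = true) : YB E x = 0 := by
  obtain ⟨d, hd, he⟩ := anyL_true h
  obtain ⟨g, hg⟩ := BLS_sub d hd
  unfold YB
  rw [if_pos]
  exact ⟨g, (HasPat_iff hE x g).mpr (by rw [hg]; exact Nat.eq_of_beq_eq_true he)⟩

theorem YB_le (x : Fin 6 → V) : YB E x ≤ 1 := by
  unfold YB
  split_ifs <;> simp

/-! ### Bipartite structures with a side of a given size -/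

def cnt (g : Fin 6 → Bool) : ℕ := (univ.filter fun i => g i = true).card

/-- the six-tuple is complete bipartite with `j` vertices on one side -/
def RelT (E : V → V → V → ℕ) (j : ℕ) (x : Fin 6 → V) : Prop := ∃ g, cnt g = j ∧ HasPat E x g

open scoped Classical in
noncomputable def ZT (E : V → V → V → ℕ) (j : ℕ) (x : Fin 6 → V) : ℕ := if RelT E j x then 1 else 0

theorem cnt_comp (g : Fin 6 → Bool) {s : Fin 6 → Fin 6} (hs : ∀ i, s (s i) = i) :
    cnt (g ∘ s) = cnt g := by
  unfold cnt
  refine card_bij (fun i _ => s i) ?_ ?_ ?_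
  · intro i hi
    rw [mem_filter] at hi ⊢
    exact ⟨mem_univ _, hi.2⟩
  · intro i _ j _ e
    have := congrArg s e
    rwa [hs, hs] at this
  · intro i hi
    rw [mem_filter] at hi
    exact ⟨s i, mem_filter.mpr ⟨mem_univ _, by simp [hs, hi.2]⟩, hs i⟩

theorem ZT_comp {j : ℕ} (x : Fin 6 → V) {s : Fin 6 → Fin 6} (hs : ∀ i, s (s i) = i) :
    ZT E j (x ∘ s) = ZT E j x := by
  have key : RelT E j (x ∘ s) ↔ RelT E j x := by
    constructor
    · rintro ⟨g, h0, h⟩
      have := HasPat_comp hs h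
      rw [comp_comp x hs] at this
      exact ⟨_, (cnt_comp g hs).trans h0, this⟩
    · rintro ⟨g, h0, h⟩
      exact ⟨_, (cnt_comp g hs).trans h0, HasPat_comp hs h⟩
  unfold ZT
  by_cases h : RelT E j x
  · rw [if_pos h, if_pos (key.mpr h)]
  · rw [if_neg h, if_neg fun h' => h (key.mp h')]

theorem ZT_le {j : ℕ} (x : Fin 6 → V) : ZT E j x ≤ 1 := by
  unfold ZT
  split_ifs <;> simp

/-- no code outside of the list belongs to a structure with `j` vertices on one side -/
theorem ZT_of_not (hE : Sy E) {j : ℕ} {L : List ℕ} (hL : ∀ g : Fin 6 → Bool, cnt g = j → codeG g ∈ L)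
    {x : Fin 6 → V} (h : anyL L (fun d => Nat.beq (code E x) d) = false) : ZT E j x = 0 := by
  unfold ZT
  rw [if_neg]
  rintro ⟨g, hg, hp⟩
  have hm := hL g hg
  rw [← (HasPat_iff hE x g).mp hp] at hm
  clear hL
  induction L with
  | nil => exact absurd hm List.not_mem_nil
  | cons d L ih =>
    have h' : (Nat.beq (code E x) d || anyL L (fun d => Nat.beq (code E x) d)) = false := h
    rw [Bool.or_eq_false_iff] at h'
    rcases List.mem_cons.mp hm with h1 | h1
    · have h2 := h'.1
      rw [h1] at h2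
      have h3 : Nat.beq d d = true := Nat.beq_refl d
      rw [h3] at h2
      exact absurd h2 (by decide)
    · exact ih h'.2 h1

end
end Pool.Agent.Q306.FK
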