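import Pool.Agent.Q306.FK.Cnt
import Pool.Agent.TH484.CL.Blow

/-! From copies of a six-vertex 3-graph to 3-graphs with a homomorphism to it, and the Turán
density. -/

set_option autoImplicit false
set_option maxRecDepth 100000
set_option maxHeartbeats 4000000
open Finset Filter Topology

namespace Pool.Agent.Q306.FK

variable {n : ℕ}

/-- every edge of `G` is mapped to an edge of `H` -/
def Full (G : Finset (Finset (Fin 6))) (H : Finset (Finset (Fin n))) (y : Fin 6 → Fin n) : Prop :=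
  ∀ e ∈ G, e.image y ∈ H

instance (G : Finset (Finset (Fin 6))) (H : Finset (Finset (Fin n))) (y : Fin 6 → Fin n) :
    Decidable (Full G H y) := by
  unfold Full; infer_instance

theorem copies_le (G : Finset (Finset (Fin 6))) (H : Finset (Finset (Fin n))) :
    copies G H ≤ ((univ : Finset (Fin 6 → Fin n)).filter fun y => Full G H y).card := by
  unfold copies
  refine (card_le_card (t := ((univ : Finset (Fin 6 → Fin n)).filter fun y => Full G H y).image
    fun y => univ.image y) ?_).trans card_image_le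
  intro S hS
  obtain ⟨f, -, h1, h2⟩ := (mem_filter.mp hS).2
  exact mem_image.mpr ⟨f, mem_filter.mpr ⟨mem_univ _, h2⟩, h1⟩

theorem embed {m : ℕ} {F : Finset (Finset (Fin m))} (hF : ThreeGraph F)
    {G : Finset (Finset (Fin 6))} (hG : ∀ e ∈ G, e.card = 3)
    (hcov : ∀ i j : Fin 6, i ≠ j → ∃ k : Fin 6, ({i, j, k} : Finset (Fin 6)) ∈ G)
    {c : Fin m → Fin 6} (hc : ∀ e ∈ F, e.image c ∈ G) {H : Finset (Finset (Fin n))}
    (hH : ThreeGraph H) {t : ℕ} (ht : m < t)
    {τ : Fin 6 → Fin t → Fin n} (hτ : ∀ i, Function.Injective (τ i))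
    (hfull : ∀ j : Fin 6 → Fin t, Full G H (fun i => τ i (j i))) : Contains F H := by
  have hdis : ∀ (i j : Fin 6) (a b : Fin t), i ≠ j → τ i a ≠ τ j b := by
    intro i j a b hij
    obtain ⟨k, hk⟩ := hcov i j hij
    have h1 := hfull (fun l => if l = i then a else b) _ hk
    simp only [image_insert, image_singleton, if_true, if_neg hij.symm] at h1
    exact (dist3 hH h1).1
  refine ⟨fun x => τ (c x) ⟨x.val, x.isLt.trans ht⟩, ?_, ?_⟩
  · intro x y hxy
    by_cases hcc : c x = c y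
    · simp only at hxy
      rw [hcc] at hxy
      have := hτ _ hxy
      rw [Fin.mk.injEq] at this
      exact Fin.ext this
    · exact absurd hxy (hdis _ _ _ _ hcc)
  · intro e he
    have hce := hc e he
    have hinj : Set.InjOn c (e : Set (Fin m)) := by
      rw [← card_image_iff, hG _ hce, hF e he]
    have hm0 : 0 < t := by omega
    set j : Fin 6 → Fin t := fun i =>
      if h : ∃ x ∈ e, c x = i then ⟨h.choose.val, h.choose.isLt.trans ht⟩ else ⟨0, hm0⟩ with hj
    have hjx : ∀ x ∈ e, j (c x) = ⟨x.val, x.isLt.trans ht⟩ := by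
      intro x hx
      have hex : ∃ y ∈ e, c y = c x := ⟨x, hx, rfl⟩
      have h2 : hex.choose = x := hinj hex.choose_spec.1 hx hex.choose_spec.2
      rw [hj]
      simp only
      rw [dif_pos hex]
      apply Fin.ext
      simp only
      rw [h2]
    have h1 := hfull j _ hce
    rw [image_image] at h1
    have h3 : e.image ((fun i => τ i (j i)) ∘ c) =
        e.image (fun x => τ (c x) ⟨x.val, x.isLt.trans ht⟩) := by
      refine image_congr fun x hx => ?_
      simp only [Function.comp]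
      rw [hjx x hx]
    rwa [h3] at h1

theorem few_copies {m : ℕ} {F : Finset (Finset (Fin m))} (hF : ThreeGraph F)
    {G : Finset (Finset (Fin 6))} (hG : ∀ e ∈ G, e.card = 3)
    (hcov : ∀ i j : Fin 6, i ≠ j → ∃ k : Fin 6, ({i, j, k} : Finset (Fin 6)) ∈ G)
    (hFG : MapsInto F G) {δ : ℝ} (hδ : 0 < δ) : ∃ n0 : ℕ, ∀ n, n0 ≤ n →
      ∀ H : Finset (Finset (Fin n)), ThreeGraph H → ¬ Contains F H →
      (copies G H : ℝ) ≤ δ * (n : ℝ) ^ 6 := by
  obtain ⟨c, hc⟩ := hFG
  have hδ' : 0 < min δ 1 := lt_min hδ one_pos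
  obtain ⟨n0, hn0⟩ := Pool.Agent.TH484.CL.box (m + 1) (by omega) 6 (min δ 1) hδ' (min_le_right _ _)
  refine ⟨n0, fun n hn H hH hno => ?_⟩
  by_contra hcon
  push Not at hcon
  apply hno
  have h1 : (copies G H : ℝ) ≤ ∑ y : Fin 6 → Fin n, (if Full G H y then (1 : ℝ) else 0) := by
    have := copies_le G H
    rw [sum_boole]
    exact_mod_cast this
  obtain ⟨τ, hτ, hτ2⟩ := hn0 (Fin n) (by rw [Fintype.card_fin]; exact hn)
    (fun y => if Full G H y then (1 : ℝ) else 0)
    (fun y => by split_ifs <;> norm_num) (fun y => by split_ifs <;> norm_num) (by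
      rw [Fintype.card_fin]
      refine le_trans ?_ (hcon.le.trans h1)
      exact mul_le_mul_of_nonneg_right (min_le_left _ _) (by positivity))
  refine embed hF hG hcov hc hH (Nat.lt_succ_self m) hτ fun j => ?_
  by_contra hj
  have := hτ2 j
  rw [if_neg hj] at this
  exact lt_irrefl _ this

/-- the Turán density from an upper bound for the number of edges -/
theorem tendsto_of {m : ℕ} {F : Finset (Finset (Fin m))} (h2 : ¬ TwoColourable F)
    (hup : ∀ ε : ℝ, 0 < ε → ∃ n0 : ℕ, ∀ n, n0 ≤ n → ∀ H : Finset (Finset (Fin n)),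
      ThreeGraph H → K53Free H → ¬ Contains F H → (H.card : ℝ) ≤ (1 / 8 + ε) * (n : ℝ) ^ 3) :
    Tendsto (fun n : ℕ => (ex F n : ℝ) / (n.choose 3 : ℝ)) atTop (𝓝 (3 / 4)) := by
  classical
  have hlow : ∀ n : ℕ, 3 * n.choose 3 ≤ 4 * ex F n := by
    intro n
    obtain ⟨A, hA⟩ := twoClass_card n
    have h1 : (twoClass A).card ≤ ex F n := by
      unfold ex
      refine le_sup (f := card) ?_
      refine mem_filter.mpr ⟨mem_univ _, twoClass_three A, twoClass_free A, twoClass_no A h2⟩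
    omega
  have hupp : ∀ ε : ℝ, 0 < ε → ∃ n0 : ℕ, ∀ n, n0 ≤ n →
      (ex F n : ℝ) ≤ (1 / 8 + ε) * (n : ℝ) ^ 3 := by
    intro ε hε
    obtain ⟨n0, hn0⟩ := hup ε hε
    refine ⟨n0, fun n hn => ?_⟩
    have h3 : ∃ H ∈ ((univ : Finset (Finset (Finset (Fin n)))).filter fun H =>
        ThreeGraph H ∧ K53Free H ∧ ¬ Contains F H), ex F n = H.card := by
      unfold ex
      refine exists_mem_eq_sup _ ?_ _
      obtain ⟨A, hA⟩ := twoClass_card n
      exact ⟨twoClass A, mem_filter.mpr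
        ⟨mem_univ _, twoClass_three A, twoClass_free A, twoClass_no A h2⟩⟩
    obtain ⟨H, hH, he⟩ := h3
    have h4 := (mem_filter.mp hH).2
    rw [he]
    exact hn0 n hn H h4.1 h4.2.1 h4.2.2
  rw [Metric.tendsto_atTop]
  intro ε hε
  obtain ⟨n0, hn0⟩ := hupp (ε / 24) (by positivity)
  obtain ⟨N, hN⟩ := exists_nat_gt (max 6 (48 * (1 + 1 / ε)))
  refine ⟨max n0 N, fun n hn => ?_⟩
  have hn1 : n0 ≤ n := (le_max_left _ _).trans hn
  have hn2 : N ≤ n := (le_max_right _ _).trans hn
  have hNr : max 6 (48 * (1 + 1 / ε)) < (n : ℝ) := hN.trans_le (by exact_mod_cast hn2)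
  have hn6 : (6 : ℝ) < n := (le_max_left _ _).trans_lt hNr
  have hne : 48 * (1 + 1 / ε) < (n : ℝ) := (le_max_right _ _).trans_lt hNr
  have hnε : 48 * (ε + 1) < ε * n := by
    have := mul_lt_mul_of_pos_left hne hε
    have e : ε * (48 * (1 + 1 / ε)) = 48 * (ε + 1) := by field_simp
    linarith
  have hc := ch3 n
  have hcpos : (0 : ℝ) < (n.choose 3 : ℝ) := by
    have : (0 : ℝ) < n * (n - 1) * (n - 2) := by
      apply mul_pos (mul_pos _ _) _ <;> linarith
    linarith
  have hup1 := hn0 n hn1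
  have hlo1 : (3 : ℝ) * (n.choose 3 : ℝ) ≤ 4 * (ex F n : ℝ) := by exact_mod_cast hlow n
  rw [Real.dist_eq, abs_lt]
  constructor
  · have : (3 : ℝ) / 4 ≤ (ex F n : ℝ) / (n.choose 3 : ℝ) := by
      rw [le_div_iff₀ hcpos]; linarith
    linarith
  · have : (ex F n : ℝ) / (n.choose 3 : ℝ) < 3 / 4 + ε := by
      rw [div_lt_iff₀ hcpos]
      refine hup1.trans_lt ?_
      -- 6 C(n,3) ≥ n^3 - 3 n^2
      have h6 : (n : ℝ) ^ 3 - 3 * (n : ℝ) ^ 2 ≤ 6 * (n.choose 3 : ℝ) := by
        rw [hc]; nlinarith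
      have h7 : (0 : ℝ) < (n : ℝ) ^ 2 := by positivity
      have h8 := mul_lt_mul_of_pos_right hnε h7
      have h9 := mul_le_mul_of_nonneg_left h6 (show (0 : ℝ) ≤ 3 / 4 + ε by positivity)
      nlinarith
    linarith

end Pool.Agent.Q306.FK
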