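import Pool.Agent.Q306.FK.SixA

/-! Six-vertex 3-graphs with at most twelve edges. -/

set_option autoImplicit false
set_option maxRecDepth 100000
set_option maxHeartbeats 4000000
open Finset

namespace Pool.Agent.Q306.FK.Six
open Pool.Agent.H122R2.N6 Pool.Agent.H37R3.Pen Pool.Agent.H37R3.Cop Pool.Agent.H37R3.K5 Pool.Agent.Q306.FK

theorem bt_testBit (c i : ℕ) : bt c i = 1 ↔ c.testBit i = true := by
  have e : bt c i = (c >>> i) % 2 := rfl
  rw [e, Nat.testBit_eq_decide_div_mod_eq, Nat.shiftRight_eq_div_pow]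
  simp

theorem land_sub {c d i : ℕ} (h : Nat.land c d = c) (hi : bt c i = 1) : bt d i = 1 := by
  rw [bt_testBit] at hi ⊢
  have h' : c &&& d = c := h
  rw [← h', Nat.testBit_land, Bool.and_eq_true] at hi
  exact hi.2

section
variable {V : Type} (E : V → V → V → ℕ)

/-- colourable with two colours -/
def P1 (x : Fin 6 → V) : Prop := ∃ g : Fin 6 → Bool, ∀ i j k : Fin 6, i ≠ j → i ≠ k → j ≠ k →
  E (x i) (x j) (x k) = 1 → pg g i j k = 1

def D : Finset (Fin 6 × Fin 6 × Fin 6) := univ.filter fun q => q.1 ≠ q.2.1 ∧ q.1 ≠ q.2.2 ∧ q.2.1 ≠ q.2.2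

/-- number of ordered edges -/
def N (x : Fin 6 → V) : ℕ := ∑ q ∈ D, E (x q.1) (x q.2.1) (x q.2.2)

def P3 (m : ℕ) (x : Fin 6 → V) : Prop := ∃ h : Fin 6 → Fin 6, Function.Injective h ∧
  ∀ i j k : Fin 6, i ≠ j → i ≠ k → j ≠ k → E (x i) (x j) (x k) = 1 → bt m (ti (h i) (h j) (h k)) = 1

def R (_ : ℕ) (x : Fin 6 → V) : Prop :=
  P1 E x ∨ 78 ≤ N E x ∨ P3 E 261111 x ∨ P3 E 241647 x ∨ P3 E 243703 x

variable {E}

theorem inv_inj {s : Fin 6 → Fin 6} (hs : ∀ i, s (s i) = i) : Function.Injective s := by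
  intro i j e
  have := congrArg s e
  rwa [hs, hs] at this

theorem N_comp (x : Fin 6 → V) {s : Fin 6 → Fin 6} (hs : ∀ i, s (s i) = i) :
    N E (x ∘ s) = N E x := by
  unfold N
  have hi := inv_inj hs
  refine sum_bij (fun q _ => (s q.1, s q.2.1, s q.2.2)) ?_ ?_ ?_ ?_
  · intro q hq
    unfold D at hq ⊢
    rw [mem_filter] at hq ⊢
    exact ⟨mem_univ _, hi.ne hq.2.1, hi.ne hq.2.2.1, hi.ne hq.2.2.2⟩
  · rintro ⟨a, b, c⟩ _ ⟨a', b', c'⟩ _ e
    simp only [Prod.mk.injEq] at e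
    rw [hi e.1, hi e.2.1, hi e.2.2]
  · rintro ⟨a, b, c⟩ hq
    refine ⟨(s a, s b, s c), ?_, ?_⟩
    · unfold D at hq ⊢
      rw [mem_filter] at hq ⊢
      exact ⟨mem_univ _, hi.ne hq.2.1, hi.ne hq.2.2.1, hi.ne hq.2.2.2⟩
    · simp only [hs]
  · intro q _
    rfl

theorem P1_comp {x : Fin 6 → V} {s : Fin 6 → Fin 6} (hs : ∀ i, s (s i) = i) (h : P1 E x) :
    P1 E (x ∘ s) := by
  obtain ⟨g, hg⟩ := h
  have hi := inv_inj hs
  exact ⟨g ∘ s, fun i j k a b c hh => hg (s i) (s j) (s k) (hi.ne a) (hi.ne b) (hi.ne c) hh⟩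

theorem P3_comp {m : ℕ} {x : Fin 6 → V} {s : Fin 6 → Fin 6} (hs : ∀ i, s (s i) = i)
    (h : P3 E m x) : P3 E m (x ∘ s) := by
  obtain ⟨g, hg0, hg⟩ := h
  have hi := inv_inj hs
  exact ⟨g ∘ s, hg0.comp hi,
    fun i j k a b c hh => hg (s i) (s j) (s k) (hi.ne a) (hi.ne b) (hi.ne c) hh⟩

theorem R_comp (n : ℕ) (x : Fin 6 → V) (s : Fin 6 → Fin 6) (hs : ∀ i, s (s i) = i)
    (h : R E n x) : R E n (x ∘ s) := by
  rcases h with h | h | h | h | h
  · exact Or.inl (P1_comp hs h)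
  · refine Or.inr (Or.inl ?_)
    rw [N_comp x hs]; exact h
  · exact Or.inr (Or.inr (Or.inl (P3_comp hs h)))
  · exact Or.inr (Or.inr (Or.inr (Or.inl (P3_comp hs h))))
  · exact Or.inr (Or.inr (Or.inr (Or.inr (P3_comp hs h))))

theorem ti_lt : ∀ q ∈ D, ti q.1 q.2.1 q.2.2 ∈ range 20 := by decide +kernel
theorem fib6 : ∀ t ∈ range 20, (D.filter fun q => ti q.1 q.2.1 q.2.2 = t).card = 6 := by
  decide +kernel

theorem N_code (hE : Sy E) (x : Fin 6 → V) : N E x = 6 * pop (code E x) := by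
  have h1 : N E x = ∑ q ∈ D, bt (code E x) (ti q.1 q.2.1 q.2.2) := by
    unfold N
    refine sum_congr rfl fun q hq => ?_
    unfold D at hq
    rw [mem_filter] at hq
    exact code_bt hE x _ _ _ hq.2.1 hq.2.2.1 hq.2.2.2
  rw [h1, ← sum_fiberwise_of_maps_to ti_lt]
  unfold pop
  rw [nsum_eq, mul_sum]
  refine sum_congr rfl fun t ht => ?_
  have h2 : ∀ q ∈ D.filter (fun q => ti q.1 q.2.1 q.2.2 = t),
      bt (code E x) (ti q.1 q.2.1 q.2.2) = bt (code E x) t := by
    intro q hq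
    rw [(mem_filter.mp hq).2]
  rw [sum_congr rfl h2, sum_const, fib6 t ht, smul_eq_mul]

theorem P3_of (hE : Sy E) {m : ℕ} {L : List (ℕ × ℕ)} (hL : mapB m L = true) {x : Fin 6 → V}
    (h : subL (code E x) L = true) : P3 E m x := by
  obtain ⟨d, hd, he⟩ := subL_true h
  unfold mapB at hL
  rw [List.all_eq_true] at hL
  have h1 := hL d hd
  rw [Bool.and_eq_true, decide_eq_true_eq, decide_eq_true_eq] at h1
  refine ⟨gp d.2, h1.1, ?_⟩
  intro i j k hij hik hjk hh
  rw [code_bt hE x i j k hij hik hjk] at hh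
  have h2 := land_sub he hh
  exact of_sorted (P := fun i j k => bt d.1 (ti i j k) = 1 →
      bt m (ti (gp d.2 i) (gp d.2 j) (gp d.2 k)) = 1)
    (fun i j k h hb => by rw [ti_213]; exact h (by rwa [ti_213] at hb))
    (fun i j k h hb => by rw [ti_132]; exact h (by rwa [ti_132] at hb)) h1.2 i j k hij hik hjk h2

theorem R_of_ok (hE : Sy E) (n : ℕ) (x : Fin 6 → V) (h : okS n (code E x) = true) : R E n x := by
  have h' : (twoC (code E x) || (Nat.ble 13 (pop (code E x)) || (subL (code E x) IA ||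
    (subL (code E x) IB || subL (code E x) IC)))) = true := h
  simp only [Bool.or_eq_true] at h'
  rcases h' with h1 | h1 | h1 | h1 | h1
  · left
    obtain ⟨d, hd, he⟩ := anyL_true h1
    obtain ⟨g, hg⟩ := BLS_sub d hd
    refine ⟨g, fun i j k hij hik hjk hh => ?_⟩
    rw [code_bt hE x i j k hij hik hjk] at hh
    rw [codeG_bt g i j k hij hik hjk, hg]
    exact land_sub (Nat.eq_of_beq_eq_true he) hh
  · right; left
    rw [N_code hE]
    have : 13 ≤ pop (code E x) := Nat.le_of_ble_eq_true h1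
    omega
  · exact Or.inr (Or.inr (Or.inl (P3_of hE mA h1)))
  · exact Or.inr (Or.inr (Or.inr (Or.inl (P3_of hE mB h1))))
  · exact Or.inr (Or.inr (Or.inr (Or.inr (P3_of hE mC h1))))

theorem R_zero {n : ℕ} {x : Fin 6 → V} (h : R E n x) : R E 0 x := h

theorem R_all (hE : Sy E) (hK : NoK5 E) (a b c d e f : V) : R E 0 ![a, b, c, d, e, f] := by
  have h := leafR_all (R := R E) hE hK R_comp (R_of_ok hE) zs4 zs2 hc a b c d e f
  exact R_zero h

end

theorem fibe : ∀ e ∈ (univ : Finset (Fin 6)).powersetCard 3,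
    ((univ : Finset (Fin 6 × Fin 6 × Fin 6)).filter fun q =>
      ({q.1, q.2.1, q.2.2} : Finset (Fin 6)) = e).card ≤ 6 := by decide +kernel

theorem N_le {F : Finset (Finset (Fin 6))} (hF : ThreeGraph F) : N (tn F) id ≤ 6 * F.card := by
  unfold N
  set T : Finset (Fin 6 × Fin 6 × Fin 6) := univ.filter fun q =>
        ({q.1, q.2.1, q.2.2} : Finset (Fin 6)) ∈ F with hT
  have h1 : ∑ q ∈ D, tn F (id q.1) (id q.2.1) (id q.2.2) ≤ T.card := by
    rw [hT, card_filter]
    exact sum_le_sum_of_subset (subset_univ _)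
  refine h1.trans ?_
  have hfw := card_eq_sum_card_fiberwise (s := T) (f := fun q : Fin 6 × Fin 6 × Fin 6 =>
    ({q.1, q.2.1, q.2.2} : Finset (Fin 6))) (t := F)
    (fun q hq => (mem_filter.mp (mem_coe.mp hq)).2)
  rw [hfw]
  calc _ ≤ ∑ e ∈ F, 6 := by
        refine sum_le_sum fun e he => ?_
        refine le_trans (card_le_card ?_) (fibe e (mem_powersetCard.mpr ⟨subset_univ _, hF e he⟩))
        intro q hq
        exact mem_filter.mpr ⟨mem_univ _, (mem_filter.mp hq).2⟩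
    _ = 6 * F.card := by rw [sum_const, smul_eq_mul, mul_comm]

theorem maps_of {m : ℕ} {G F : Finset (Finset (Fin 6))} (hm : MaskG m G) (hF : ThreeGraph F)
    (h : P3 (tn F) m id) : MapsInto F G := by
  obtain ⟨c, hc0, hc⟩ := h
  refine ⟨c, fun e he => ?_⟩
  obtain ⟨i, j, k, hij, hjk, rfl⟩ := sortedT e (hF e he)
  have h1 := hc i j k hij.ne (hij.trans hjk).ne hjk.ne (tn_one.mpr he)
  rw [image_insert, image_insert, image_singleton]
  exact of_sorted (P := fun i j k => bt m (ti i j k) = 1 → ({i, j, k} : Finset (Fin 6)) ∈ G)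
    (fun i j k h hb => by rw [insert_comm]; exact h (by rwa [ti_213] at hb))
    (fun i j k h hb => by rw [pair_comm k j]; exact h (by rwa [ti_132] at hb))
    (fun i j k h1 h2 h3 => (hm.1 i j k h1 h2).mp h3) _ _ _ (hc0.ne hij.ne)
    (hc0.ne (hij.trans hjk).ne) (hc0.ne hjk.ne) h1

theorem maskA : MaskG 261111 GA := by decide +kernel
theorem maskB : MaskG 241647 GB := by decide +kernel
theorem maskC : MaskG 243703 GC := by decide +kernel

/-- a six-vertex 3-graph with at most twelve edges is colourable with two colours or maps to one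
of the three 3-graphs, unless it contains a complete 3-graph on five vertices -/
theorem six {F : Finset (Finset (Fin 6))} (hF : ThreeGraph F) (hK : FK.K53Free F)
    (h12 : F.card ≤ 12) (h2 : ¬ TwoColourable F) :
    MapsInto F GA ∨ MapsInto F GB ∨ MapsInto F GC := by
  have h := R_all (tn_sy F) (tn_noK5 hF hK) 0 1 2 3 4 5
  have e : ![(0 : Fin 6), 1, 2, 3, 4, 5] = id := by
    funext i; fin_cases i <;> rfl
  rw [e] at h
  rcases h with h | h | h | h | h
  · exfalso
    apply h2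
    obtain ⟨g, hg⟩ := h
    refine ⟨g, fun e he => ?_⟩
    obtain ⟨i, j, k, hij, hjk, rfl⟩ := sortedT e (hF e he)
    have h1 := hg i j k hij.ne (hij.trans hjk).ne hjk.ne (tn_one.mpr he)
    unfold pg at h1
    by_contra hcon
    push Not at hcon
    have e1 := hcon i (by simp) j (by simp)
    have e2 := hcon j (by simp) k (by simp)
    rw [e1, e2] at h1
    simp at h1
  · have := N_le hF
    omega
  · exact Or.inl (maps_of maskA hF h)
  · exact Or.inr (Or.inl (maps_of maskB hF h))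
  · exact Or.inr (Or.inr (maps_of maskC hF h))

end Pool.Agent.Q306.FK.Six
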